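import Pool.Agent.Lib.MP_640417_ag.Cls.Spec

/-!
# The dihedral group of order eight acting freely: every sign function has a relation
-/

namespace Pool.Agent.Lib.MP_640417_ag.Cls

open Module Finset MulAction NumberField

/-- The odd Boolean functions on the dihedral group of order eight. -/
private def fn (a b c d : Bool) : DihedralGroup 4 → Bool
  | DihedralGroup.r i => if i = 0 then a else if i = 1 then b else if i = 2 then !a else !b
  | DihedralGroup.sr i => if i = 0 then c else if i = 1 then d else if i = 2 then !c else !d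

private lemma key_fin : ∀ a b c d : Bool, ∃ s s' : DihedralGroup 4, s' ≠ s ∧
    s' ≠ DihedralGroup.r 2 * s ∧ ∀ h, Bool.xor (fn a b c d (h * s)) (fn a b c d s)
      = Bool.xor (fn a b c d (h * s')) (fn a b c d s') := by
  decide

private lemma central_r2 : ∀ g : DihedralGroup 4, (∀ h, h * g = g * h) → g * g = 1 → g ≠ 1 →
    g = DihedralGroup.r 2 := by
  decide

private lemma fn_eq (B : DihedralGroup 4 → Bool)
    (hB : ∀ g, B (DihedralGroup.r 2 * g) = !(B g)) (g : DihedralGroup 4) :
    B g = fn (B (DihedralGroup.r 0)) (B (DihedralGroup.r 1)) (B (DihedralGroup.sr 0))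
      (B (DihedralGroup.sr 1)) g := by
  have h2 : B (DihedralGroup.r 2) = !(B (DihedralGroup.r 0)) := by
    rw [← hB]; rfl
  have h3 : B (DihedralGroup.r 3) = !(B (DihedralGroup.r 1)) := by
    rw [← hB]; rfl
  have h4 : B (DihedralGroup.sr 2) = !(B (DihedralGroup.sr 0)) := by
    rw [← hB]; rfl
  have h5 : B (DihedralGroup.sr 3) = !(B (DihedralGroup.sr 1)) := by
    rw [← hB]; rfl
  rcases g with i | i
  · fin_cases i
    · rfl
    · rfl
    · exact h2
    · exact h3
  · fin_cases i
    · rfl
    · rfl
    · exact h4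
    · exact h5

theorem pConvD4 : StConvD4 := by
  intro S G _ _ _ _ _ z hz hzz hzs s₀ hfree hiso e he
  classical
  obtain ⟨ψ⟩ := hiso
  obtain ⟨he1, he2⟩ := he
  have hz1 : z ≠ 1 := by
    rintro rfl
    exact hzs s₀ (one_smul G s₀)
  have hψz : ψ z = DihedralGroup.r 2 := by
    apply central_r2
    · intro h
      obtain ⟨g, rfl⟩ := ψ.surjective h
      rw [← map_mul, ← map_mul, hz]
    · rw [← map_mul, hzz, map_one]
    · intro h
      exact hz1 (ψ.injective (h.trans (map_one ψ).symm))
  have hψz' : ψ.symm (DihedralGroup.r 2) = z := by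
    rw [← hψz, MulEquiv.symm_apply_apply]
  set B : DihedralGroup 4 → Bool := fun g => decide (e (ψ.symm g • s₀) = 1) with hBdef
  have hB : ∀ g, B (DihedralGroup.r 2 * g) = !(B g) := by
    intro g
    simp only [hBdef, map_mul, hψz', mul_smul, he2]
    rcases he1 (ψ.symm g • s₀) with h | h <;> simp [h]
  have hfn := fn_eq B hB
  obtain ⟨s, s', hss, hss2, hrel⟩ := key_fin (B (DihedralGroup.r 0)) (B (DihedralGroup.r 1))
    (B (DihedralGroup.sr 0)) (B (DihedralGroup.sr 1))
  simp only [← hfn] at hrel
  set p : S := ψ.symm s • s₀ with hp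
  set p' : S := ψ.symm s' • s₀ with hp'
  have hinj : ∀ a b : G, a • s₀ = b • s₀ → a = b := by
    intro a b hab
    have h1 : (b⁻¹ * a) • s₀ = s₀ := by rw [mul_smul, hab, inv_smul_smul]
    have h2 := hfree _ _ h1
    rwa [inv_mul_eq_one, eq_comm] at h2
  have hpp : p' ≠ p := by
    intro h
    exact hss (ψ.symm.injective (hinj _ _ h))
  have hpp2 : p' ≠ z • p := by
    intro h
    rw [hp, hp', ← mul_smul] at h
    have h1 := hinj _ _ h
    apply hss2
    apply ψ.symm.injective
    rw [h1, map_mul, hψz']
  have hpp3 : p ≠ z • p' := by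
    intro h
    apply hpp2
    rw [h, ← mul_smul, hzz, one_smul]
  -- the relation between the values
  have hval : ∀ γ : G, e p * e (γ • p) = e p' * e (γ • p') := by
    intro γ
    have h1 := hrel (ψ γ)
    simp only [hBdef, map_mul, MulEquiv.symm_apply_apply, mul_smul] at h1
    rw [← hp, ← hp'] at h1
    rcases he1 p with h2 | h2 <;> rcases he1 p' with h3 | h3 <;>
      rcases he1 (γ • p) with h4 | h4 <;> rcases he1 (γ • p') with h5 | h5 <;>
      simp [h2, h3, h4, h5] at h1 ⊢
  have hsum : ∀ (q : S) (γ : G), ∑ x, (e q * ((if x = q then 1 else 0)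
      - (if x = z • q then 1 else 0))) * e (γ • x) = 2 * (e q * e (γ • q)) := by
    intro q γ
    have h1 : ∀ x, (e q * ((if x = q then 1 else 0) - (if x = z • q then 1 else 0))) * e (γ • x)
        = (if x = q then e q * e (γ • x) else 0) - (if x = z • q then e q * e (γ • x) else 0) := by
      intro x
      split_ifs <;> ring
    rw [Finset.sum_congr rfl fun x _ => h1 x, Finset.sum_sub_distrib, Finset.sum_ite_eq',
      Finset.sum_ite_eq', if_pos (Finset.mem_univ _), if_pos (Finset.mem_univ _)]
    rw [← mul_smul γ z q, hz, mul_smul, he2]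
    ring
  refine ⟨fun x => e p * ((if x = p then 1 else 0) - (if x = z • p then 1 else 0))
    - e p' * ((if x = p' then 1 else 0) - (if x = z • p' then 1 else 0)), ⟨?_, ?_⟩, ?_⟩
  · intro x
    have hz' : ∀ a b : S, (z • a = b) ↔ (a = z • b) := by
      intro a b
      constructor
      · rintro rfl
        rw [← mul_smul, hzz, one_smul]
      · rintro rfl
        rw [← mul_smul, hzz, one_smul]
    have hz'' : ∀ a b : S, (z • a = z • b) ↔ (a = b) := fun a b =>
      ⟨fun h => by simpa using h, fun h => by rw [h]⟩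
    simp only [hz'', hz' x p, hz' x p']
    ring
  · intro γ
    simp only [sub_mul (e p * _) (e p' * _)]
    rw [Finset.sum_sub_distrib, hsum p γ, hsum p' γ, hval γ, sub_self]
  · intro h
    have h1 := congrFun h p
    simp only [Pi.zero_apply] at h1
    rw [if_true, if_neg (fun h => hzs p h.symm), if_neg (fun h => hpp h.symm),
      if_neg hpp3] at h1
    rcases he1 p with h2 | h2 <;> rw [h2] at h1 <;> norm_num at h1

end Pool.Agent.Lib.MP_640417_ag.Cls
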