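import Pool.Agent.Lib.MP_640417_ag.Cls.Spec

/-!
# The Klein four case: no sign function is primitive
-/

namespace Pool.Agent.Lib.MP_640417_ag.Cls

open Module Finset MulAction NumberField

private lemma v4_sq : ∀ x : DihedralGroup 2, x * x = 1 := by decide

private lemma v4_ex : ∀ a : DihedralGroup 2, ∃ b, b ≠ 1 ∧ b ≠ a := by decide

private lemma v4_all : ∀ a b c : DihedralGroup 2, a ≠ 1 → b ≠ 1 → b ≠ a →
    c = 1 ∨ c = a ∨ c = b ∨ c = a * b := by decide

theorem pConvV4 : StConvV4 := by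
  intro S G _ _ _ _ _ z hz hz2 hzs s₀ hfree ⟨f⟩ e ⟨hpm, hez⟩
  have hsq : ∀ x : G, x * x = 1 := by
    intro x
    apply f.injective
    rw [map_mul, map_one]
    exact v4_sq _
  have hz1 : z ≠ 1 := by
    rintro rfl
    exact hzs s₀ (one_smul _ _)
  obtain ⟨b, hb1, hbz⟩ := v4_ex (f z)
  obtain ⟨g, rfl⟩ := f.surjective b
  have hg1 : g ≠ 1 := by
    rintro rfl
    exact hb1 (map_one f)
  have hgz : g ≠ z := by
    rintro rfl
    exact hbz rfl
  have hall : ∀ γ : G, γ = 1 ∨ γ = z ∨ γ = g ∨ γ = z * g := by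
    intro γ
    rcases v4_all (f z) (f g) (f γ) (fun h => hz1 (f.injective (h.trans (map_one f).symm)))
      hb1 hbz with h | h | h | h
    · exact Or.inl (f.injective (h.trans (map_one f).symm))
    · exact Or.inr (Or.inl (f.injective h))
    · exact Or.inr (Or.inr (Or.inl (f.injective h)))
    · exact Or.inr (Or.inr (Or.inr (f.injective (h.trans (map_mul f z g).symm))))
  have hgg : ∀ s : S, g • g • s = s := fun s => by rw [← mul_smul, hsq, one_smul]
  have hzg : ∀ s : S, g • z • s = z • g • s := fun s => by rw [← mul_smul, hz, mul_smul]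
  by_cases h : e (g • s₀) = e s₀
  · refine ⟨s₀, g • s₀, fun h' => hg1 (hfree g s₀ h'.symm), fun γ => ?_⟩
    rcases hall γ with rfl | rfl | rfl | rfl
    · rw [one_smul, one_smul, h]
    · rw [hez, hez, h]
    · rw [hgg, h]
    · rw [mul_smul, mul_smul, hez, hez, hgg, h]
  · have h2 : e (g • s₀) = - e s₀ := by
      rcases hpm (g • s₀) with h3 | h3 <;> rcases hpm s₀ with h4 | h4
      · exact absurd (h3.trans h4.symm) h
      · rw [h3, h4, neg_neg]
      · rw [h3, h4]
      · exact absurd (h3.trans h4.symm) h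
    refine ⟨s₀, z • g • s₀, fun h' => hgz ?_, fun γ => ?_⟩
    · have h5 : (z * g) • s₀ = s₀ := by rw [mul_smul, ← h']
      have h6 := hfree _ _ h5
      have h7 : z * (z * g) = z * 1 := by rw [h6]
      rwa [← mul_assoc, hz2, one_mul, mul_one] at h7
    · rcases hall γ with rfl | rfl | rfl | rfl
      · rw [one_smul, one_smul, hez, h2, neg_neg]
      · rw [hez, hez, hez, h2, neg_neg]
      · rw [hzg, hez, hgg, h2]
      · rw [mul_smul, mul_smul, hez, hez, hzg, hez, hgg, h2]

end Pool.Agent.Lib.MP_640417_ag.Cls
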