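import Pool.Agent.Lib.MP_640417_ag.Cls.Spec

/-!
# Eight elements: the group is dihedral of order eight
-/

namespace Pool.Agent.Lib.MP_640417_ag.Cls

open Module Finset MulAction NumberField

/-! ## The dihedral group from generators and relations -/

private theorem d4_mk {G : Type} [Group G] [Finite G] (hG : Nat.card G = 8) (ρ t z : G)
    (hz1 : z ≠ 1) (hz : z * z = 1) (hρ : ρ * ρ = z) (ht : t * t = 1)
    (hc : t * ρ * t = ρ * z) (n1 : t ≠ 1) (n2 : t ≠ z) (n3 : t ≠ ρ) (n4 : t ≠ ρ * z) :
    Nonempty (G ≃* DihedralGroup 4) := by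
  have hρ2 : ρ ^ 2 = z := by rw [pow_two, hρ]
  have hρ4 : ρ ^ 4 = 1 := by
    have : ρ ^ 4 = (ρ ^ 2) ^ 2 := by rw [← pow_mul]
    rw [this, hρ2, pow_two, hz]
  have hρ3 : ρ ^ 3 = ρ * z := by rw [pow_succ' ρ 2, hρ2]
  have hinv : ρ⁻¹ = ρ * z := by
    rw [inv_eq_iff_mul_eq_one, ← mul_assoc, hρ, hz]
  have hmod : ∀ k : ℕ, ρ ^ k = ρ ^ (k % 4) := fun k => pow_eq_pow_mod k hρ4
  have hadd : ∀ i j : ZMod 4, ρ ^ (i + j).val = ρ ^ i.val * ρ ^ j.val := by
    intro i j
    rw [ZMod.val_add, ← pow_add]
    exact (hmod _).symm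
  have hneg : ∀ i : ZMod 4, ρ ^ (-i).val = (ρ ^ i.val)⁻¹ := by
    intro i
    rw [eq_comm, inv_eq_iff_mul_eq_one, ← hadd, add_neg_cancel, ZMod.val_zero, pow_zero]
  have htinv : t⁻¹ = t := by rw [inv_eq_iff_mul_eq_one, ht]
  have hconj : ∀ k : ℕ, ρ ^ k * t = t * (ρ ^ k)⁻¹ := by
    intro k
    have h1 : t * ρ ^ k * t⁻¹ = (ρ ^ k)⁻¹ := by
      rw [← conj_pow, htinv, hc, ← hinv, inv_pow]
    rw [← h1, htinv]
    simp only [← mul_assoc]
    rw [ht, one_mul]
  have htρ : ∀ k : ℕ, t ≠ ρ ^ k := by
    intro k hk
    rw [hmod k] at hk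
    have hlt : k % 4 < 4 := Nat.mod_lt _ (by norm_num)
    interval_cases h : k % 4
    · exact n1 (by rw [hk, pow_zero])
    · exact n3 (by rw [hk, pow_one])
    · exact n2 (by rw [hk, hρ2])
    · exact n4 (by rw [hk, hρ3])
  have hord : orderOf ρ = 4 := by
    have : orderOf ρ = 2 ^ (1 + 1) := by
      apply orderOf_eq_prime_pow
      · rw [pow_one, hρ2]
        exact hz1
      · exact hρ4
    simpa using this
  let f : DihedralGroup 4 → G := fun x => match x with
    | .r i => ρ ^ i.val
    | .sr i => t * ρ ^ i.val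
  have hfr : ∀ i, f (.r i) = ρ ^ i.val := fun _ => rfl
  have hfs : ∀ i, f (.sr i) = t * ρ ^ i.val := fun _ => rfl
  have hmul : ∀ x y, f (x * y) = f x * f y := by
    rintro (i | i) (j | j)
    · rw [DihedralGroup.r_mul_r, hfr, hfr, hfr, hadd]
    · rw [DihedralGroup.r_mul_sr, hfs, hfr, hfs, ← mul_assoc, hconj, mul_assoc,
        ← hneg, ← hadd]
      congr 3
      ring
    · rw [DihedralGroup.sr_mul_r, hfs, hfs, hfr, hadd, mul_assoc]
    · rw [DihedralGroup.sr_mul_sr, hfr, hfs, hfs]
      have h1 : t * ρ ^ i.val * (t * ρ ^ j.val) = t * (ρ ^ i.val * t) * ρ ^ j.val := by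
        simp only [mul_assoc]
      rw [h1, hconj, ← mul_assoc t t, ht, one_mul, ← hneg, ← hadd]
      congr 2
      ring
  have hval : ∀ i : ZMod 4, i.val < 4 := fun i => ZMod.val_lt i
  have hpinj : ∀ i j : ZMod 4, ρ ^ i.val = ρ ^ j.val → i = j := by
    intro i j h
    apply ZMod.val_injective
    apply pow_injOn_Iio_orderOf _ _ h
    · rw [hord]; exact hval i
    · rw [hord]; exact hval j
  have hinj : Function.Injective f := by
    rintro (i | i) (j | j) h
    · rw [hfr, hfr] at h
      rw [hpinj i j h]
    · rw [hfr, hfs] at h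
      exfalso
      apply htρ ((i - j).val)
      rw [sub_eq_add_neg, hadd, hneg, h]
      simp
    · rw [hfr, hfs] at h
      exfalso
      apply htρ ((j - i).val)
      rw [sub_eq_add_neg, hadd, hneg, ← h]
      simp
    · rw [hfs, hfs] at h
      rw [hpinj i j (mul_left_cancel h)]
  have hbij : Function.Bijective f := by
    apply hinj.bijective_of_nat_card_le
    rw [hG, DihedralGroup.nat_card]
  exact ⟨(MulEquiv.ofBijective (MonoidHom.mk' f hmul) hbij).symm⟩

/-! ## Small combinatorics in a group of order eight with a central involution -/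

section Eight

variable {G : Type} [Group G] {z : G}

/-- the classes of `x` and `y` modulo `z` are different -/
private def DD (z x y : G) : Prop := x ≠ y ∧ x ≠ z * y ∧ z * x ≠ y ∧ z * x ≠ z * y

private theorem DD.mk' (hz : z * z = 1) {x y : G} (h1 : x ≠ y) (h2 : x ≠ z * y) : DD z x y := by
  refine ⟨h1, h2, ?_, ?_⟩
  · intro h
    apply h2
    rw [← h, ← mul_assoc, hz, one_mul]
  · intro h
    exact h1 (mul_left_cancel h)

private theorem cover [Finite G] (hG : Nat.card G = 8) (hz1 : z ≠ 1) {a b c : G}
    (h1 : DD z 1 a) (h2 : DD z 1 b) (h3 : DD z 1 c) (h4 : DD z a b) (h5 : DD z a c)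
    (h6 : DD z b c) (γ : G) :
    γ = 1 ∨ γ = z ∨ γ = a ∨ γ = z * a ∨ γ = b ∨ γ = z * b ∨ γ = c ∨ γ = z * c := by
  classical
  have := Fintype.ofFinite G
  have hx : ∀ x : G, x ≠ z * x := by
    intro x h
    apply hz1
    have h7 : 1 * x = z * x := by rw [one_mul]; exact h
    exact (mul_right_cancel h7).symm
  have hz' : z * 1 = z := mul_one z
  obtain ⟨p1, p2, p3, p4⟩ := h1
  obtain ⟨q1, q2, q3, q4⟩ := h2
  obtain ⟨r1, r2, r3, r4⟩ := h3
  obtain ⟨s1, s2, s3, s4⟩ := h4
  obtain ⟨t1, t2, t3, t4⟩ := h5
  obtain ⟨u1, u2, u3, u4⟩ := h6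
  rw [hz'] at p3 p4 q3 q4 r3 r4
  have hc : ({1, z, a, z * a, b, z * b, c, z * c} : Finset G).card = 8 := by
    rw [card_insert_of_notMem, card_insert_of_notMem, card_insert_of_notMem,
      card_insert_of_notMem, card_insert_of_notMem, card_insert_of_notMem,
      card_insert_of_notMem, card_singleton]
    · simpa using hx c
    · simp only [mem_insert, mem_singleton, not_or]
      exact ⟨u3, u4⟩
    · simp only [mem_insert, mem_singleton, not_or]
      exact ⟨hx b, u1, u2⟩
    · simp only [mem_insert, mem_singleton, not_or]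
      exact ⟨s3, s4, t3, t4⟩
    · simp only [mem_insert, mem_singleton, not_or]
      exact ⟨hx a, s1, s2, t1, t2⟩
    · simp only [mem_insert, mem_singleton, not_or]
      exact ⟨p3, p4, q3, q4, r3, r4⟩
    · simp only [mem_insert, mem_singleton, not_or]
      exact ⟨hz1.symm, p1, p2, q1, q2, r1, r2⟩
  have huniv : ({1, z, a, z * a, b, z * b, c, z * c} : Finset G) = Finset.univ := by
    apply Finset.eq_univ_of_card
    rw [hc, ← Nat.card_eq_fintype_card, hG]
  have hm : γ ∈ ({1, z, a, z * a, b, z * b, c, z * c} : Finset G) := by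
    rw [huniv]; exact Finset.mem_univ γ
  simpa only [mem_insert, mem_singleton] using hm

/-- Every odd sign function on the group is invariant under an involution. -/
private def Inv (z : G) : Prop := ∀ E : G → ℤ, (∀ γ, E γ = 1 ∨ E γ = -1) →
  (∀ γ, E (z * γ) = - E γ) → ∃ t : G, t ≠ 1 ∧ t * t = 1 ∧ ∀ γ, E (t * γ) = E γ

private theorem keyK [Finite G] (hG : Nat.card G = 8) (hcen : ∀ γ : G, γ * z = z * γ)
    (hz : z * z = 1) (hz1 : z ≠ 1) (H : Inv z) (a b : G) (ha1 : a ≠ 1) (haz : a ≠ z)
    (hb1 : b ≠ 1) (hbz : b ≠ z) (hba : b ≠ a) (hbza : b ≠ z * a) (hab1 : a * b ≠ 1)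
    (habz : a * b ≠ z) :
    (b * b = 1 ∧ b * a = z * (a * b)) ∨
      ((a * b) * (a * b) = 1 ∧ (z * (a * b) * a = 1 ∨ z * (a * b) * a = a ∨
        z * (a * b) * a = b ∨ z * (a * b) * a = z * (a * b))) := by
  classical
  have zz : ∀ x : G, z * (z * x) = x := fun x => by rw [← mul_assoc, hz, one_mul]
  have hx : ∀ x : G, z * x ≠ x := by
    intro x h
    apply hz1
    have h7 : z * x = 1 * x := by rw [one_mul]; exact h
    exact mul_right_cancel h7
  have g1 : DD z 1 a := DD.mk' hz ha1.symm (by
    intro h; apply haz; rw [← zz a, ← h, mul_one])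
  have g2 : DD z 1 b := DD.mk' hz hb1.symm (by
    intro h; apply hbz; rw [← zz b, ← h, mul_one])
  have g3 : DD z 1 (a * b) := DD.mk' hz hab1.symm (by
    intro h; apply habz; rw [← zz (a * b), ← h, mul_one])
  have g4 : DD z a b := DD.mk' hz hba.symm (by
    intro h; apply hbza; rw [h, zz])
  have g5 : DD z a (a * b) := DD.mk' hz (by
      intro h; apply hb1
      have : a * 1 = a * b := by rw [mul_one]; exact h
      exact (mul_left_cancel this).symm) (by
      intro h; apply hbz
      have h7 : a * 1 = a * (z * b) := by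
        rw [mul_one, ← mul_assoc, hcen a, mul_assoc]; exact h
      have h8 := mul_left_cancel h7
      rw [← zz b, ← h8, mul_one])
  have g6 : DD z b (a * b) := DD.mk' hz (by
      intro h; apply ha1
      have : 1 * b = a * b := by rw [one_mul]; exact h
      exact (mul_right_cancel this).symm) (by
      intro h; apply haz
      have h7 : 1 * b = (z * a) * b := by rw [one_mul, mul_assoc]; exact h
      have h8 := mul_right_cancel h7
      rw [← zz a, ← h8, mul_one])
  have hcov := cover hG hz1 g1 g2 g3 g4 g5 g6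
  obtain ⟨p1, p2, p3, p4⟩ := g1
  obtain ⟨q1, q2, q3, q4⟩ := g2
  obtain ⟨r1, r2, r3, r4⟩ := g3
  obtain ⟨s1, s2, s3, s4⟩ := g4
  obtain ⟨t1, t2, t3, t4⟩ := g5
  obtain ⟨u1, u2, u3, u4⟩ := g6
  rw [mul_one] at p3 p4 q3 q4 r3 r4
  set c := a * b with hcdef
  let P : G → Prop := fun γ => γ = 1 ∨ γ = a ∨ γ = b ∨ γ = z * c
  have hP : ∀ γ, P γ ↔ (γ = 1 ∨ γ = a ∨ γ = b ∨ γ = z * c) := fun _ => Iff.rfl
  have hPz : ∀ γ, P (z * γ) ↔ ¬ P γ := by
    intro γ
    rcases hcov γ with h | h | h | h | h | h | h | h <;> subst γ <;>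
      simp only [hP, zz, mul_one, hz] <;> constructor
    · rintro (h | h | h | h)
      · exact absurd h hz1
      · exact absurd h p3
      · exact absurd h q3
      · exact absurd h r4
    · intro h; exact absurd (by simp) h
    · intro _ h
      rcases h with h | h | h | h
      · exact absurd h hz1
      · exact absurd h p3
      · exact absurd h q3
      · exact absurd h r4
    · intro _; simp
    · rintro (h | h | h | h)
      · exact absurd h.symm p2
      · exact absurd h (hx a)
      · exact absurd h s3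
      · exact absurd h t4
    · intro h; exact absurd (by simp) h
    · intro _ h
      rcases h with h | h | h | h
      · exact absurd h.symm p2
      · exact absurd h (hx a)
      · exact absurd h s3
      · exact absurd h t4
    · intro _; simp
    · rintro (h | h | h | h)
      · exact absurd h.symm q2
      · exact absurd h.symm s2
      · exact absurd h (hx b)
      · exact absurd h u4
    · intro h; exact absurd (by simp) h
    · intro _ h
      rcases h with h | h | h | h
      · exact absurd h.symm q2
      · exact absurd h.symm s2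
      · exact absurd h (hx b)
      · exact absurd h u4
    · intro _; simp
    · intro _ h
      rcases h with h | h | h | h
      · exact absurd h.symm r1
      · exact absurd h.symm t1
      · exact absurd h.symm u1
      · exact absurd h.symm (hx c)
    · intro _; simp
    · rintro (h | h | h | h)
      · exact absurd h.symm r1
      · exact absurd h.symm t1
      · exact absurd h.symm u1
      · exact absurd h.symm (hx c)
    · intro h; exact absurd (by simp) h
  let E : G → ℤ := fun γ => if P γ then 1 else -1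
  have hE1 : ∀ γ, E γ = 1 ↔ P γ := by
    intro γ
    simp only [E]
    split_ifs with h
    · simp [h]
    · simp [h]
  obtain ⟨t, ht1, htt, ht⟩ := H E (by
    intro γ
    simp only [E]
    split_ifs
    · exact Or.inl rfl
    · exact Or.inr rfl) (by
    intro γ
    simp only [E]
    by_cases h : P γ
    · have h' : ¬ P (z * γ) := fun h7 => (hPz γ).1 h7 h
      rw [if_pos h, if_neg h']
    · have h' : P (z * γ) := (hPz γ).2 h
      rw [if_neg h, if_pos h']
      norm_num)
  have htP : ∀ γ, P γ → P (t * γ) := by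
    intro γ h
    rw [← hE1, ht, hE1]
    exact h
  have htR : P t := by
    have := htP 1 (Or.inl rfl)
    rwa [mul_one] at this
  rcases htR with h | h | h | h
  · exact absurd h ht1
  · exfalso
    have h7 := htP b (Or.inr (Or.inr (Or.inl rfl)))
    rw [h] at h7
    rcases h7 with h8 | h8 | h8 | h8
    · exact r1 h8.symm
    · exact t1 h8.symm
    · exact u1 h8.symm
    · exact hx c h8.symm
  · left
    rw [h] at htt
    refine ⟨htt, ?_⟩
    have h7 := htP a (Or.inr (Or.inl rfl))
    rw [h] at h7
    rcases h7 with h8 | h8 | h8 | h8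
    · exfalso
      apply hba
      have h9 : b * a = b * b := by rw [h8, htt]
      exact (mul_left_cancel h9).symm
    · exfalso
      apply hb1
      have h9 : b * a = 1 * a := by rw [one_mul]; exact h8
      exact mul_right_cancel h9
    · exfalso
      apply ha1
      have h9 : b * a = b * 1 := by rw [mul_one]; exact h8
      exact mul_left_cancel h9
    · exact h8
  · right
    rw [h] at htt
    constructor
    · have h9 : z * c * (z * c) = c * c := by
        rw [mul_assoc, ← mul_assoc c z c, hcen c, mul_assoc z c c, zz]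
      rw [← h9]
      exact htt
    · have h7 := htP a (Or.inr (Or.inl rfl))
      rw [h] at h7
      exact h7

private theorem eightCase [Finite G] (hG : Nat.card G = 8) (hcen : ∀ γ : G, γ * z = z * γ)
    (hz : z * z = 1) (hz1 : z ≠ 1) (H : Inv z) : Nonempty (G ≃* DihedralGroup 4) := by
  classical
  have zz : ∀ x : G, z * (z * x) = x := fun x => by rw [← mul_assoc, hz, one_mul]
  have hzx : ∀ x : G, z * x ≠ x := by
    intro x h
    apply hz1
    have h7 : z * x = 1 * x := by rw [one_mul]; exact h
    exact mul_right_cancel h7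
  have hpow : ∀ x : G, x ^ 8 = 1 := fun x => by rw [← hG]; exact pow_card_eq_one'
  -- squares are `1` or `z`
  have hsq : ∀ a : G, a * a = 1 ∨ a * a = z := by
    intro a
    by_contra hcon
    push Not at hcon
    obtain ⟨h1, h2⟩ := hcon
    have ha1 : a ≠ 1 := by rintro rfl; exact h1 (mul_one 1)
    have haz : a ≠ z := by rintro rfl; exact h1 hz
    have e8 : a ^ 8 = 1 := hpow a
    have h3 : a * (a * a) ≠ 1 := by
      intro h
      have e3 : a ^ 3 = 1 := by rw [pow_succ' a 2, pow_two]; exact h
      apply h1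
      have : a ^ 2 = (a ^ 8) * ((a ^ 3) * (a ^ 3))⁻¹ := by group
      rw [← pow_two, this, e8, e3]
      simp
    have h4 : a * (a * a) ≠ z := by
      intro h
      have e3 : a ^ 3 = z := by rw [pow_succ' a 2, pow_two]; exact h
      apply h1
      have : a ^ 2 = (a ^ 8) * ((a ^ 3) * (a ^ 3))⁻¹ := by group
      rw [← pow_two, this, e8, e3, hz]
      simp
    rcases keyK hG hcen hz hz1 H a (a * a) ha1 haz h1 h2 (by
      intro h; apply ha1
      have : a * a = a * 1 := by rw [mul_one]; exact h
      exact mul_left_cancel this) (by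
      intro h; apply haz
      exact mul_right_cancel h) h3 h4 with ⟨-, h5⟩ | ⟨h5, -⟩
    · rw [mul_assoc] at h5
      exact hzx _ h5.symm
    · apply h1
      have e6 : a ^ 6 = 1 := by
        have e7 : a ^ 6 = a ^ 3 * a ^ 3 := by rw [← pow_add]
        rw [e7, pow_succ' a 2, pow_two]
        exact h5
      have : a ^ 2 = (a ^ 8) * (a ^ 6)⁻¹ := by group
      rw [← pow_two, this, e8, e6]
      simp
  -- commutation up to `z`
  have hcomm : ∀ x y : G, y * x = x * y ∨ y * x = z * (x * y) := by
    intro x y
    have e1 : y * x = x⁻¹ * (x * y * (x * y)) * y⁻¹ := by group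
    have hx : x⁻¹ = x ∨ x⁻¹ = z * x := by
      rcases hsq x with h | h
      · exact Or.inl (inv_eq_of_mul_eq_one_left h)
      · right
        apply inv_eq_of_mul_eq_one_left
        rw [mul_assoc, h, hz]
    have hy : y⁻¹ = y ∨ y⁻¹ = z * y := by
      rcases hsq y with h | h
      · exact Or.inl (inv_eq_of_mul_eq_one_left h)
      · right
        apply inv_eq_of_mul_eq_one_left
        rw [mul_assoc, h, hz]
    rcases hsq (x * y) with h | h <;> rcases hx with h' | h' <;> rcases hy with h'' | h'' <;>
      rw [e1, h, h', h'']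
    · left; rw [mul_one]
    · right; rw [mul_one, ← mul_assoc, hcen x, mul_assoc]
    · right; rw [mul_one, mul_assoc]
    · left; rw [mul_one, mul_assoc, ← mul_assoc x z y, hcen x, mul_assoc, zz]
    · right; rw [hcen x, mul_assoc]
    · left; rw [hcen x, mul_assoc, ← mul_assoc x z y, hcen x, mul_assoc, zz]
    · left; rw [mul_assoc z x z, hcen x, zz]
    · right; rw [mul_assoc z x z, hcen x, zz, ← mul_assoc, hcen x, mul_assoc]
  -- two further elements
  obtain ⟨a, ha1, haz⟩ : ∃ a : G, a ≠ 1 ∧ a ≠ z := by
    by_contra hcon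
    push Not at hcon
    have := Fintype.ofFinite G
    have h1 : (Finset.univ : Finset G) ⊆ {1, z} := by
      intro x _
      rw [mem_insert, mem_singleton]
      by_cases h : x = 1
      · exact Or.inl h
      · exact Or.inr (hcon x h)
    have h2 := (Finset.card_le_card h1).trans Finset.card_le_two
    rw [Finset.card_univ, ← Nat.card_eq_fintype_card, hG] at h2
    omega
  obtain ⟨b, hb1, hbz, hba, hbza⟩ : ∃ b : G, b ≠ 1 ∧ b ≠ z ∧ b ≠ a ∧ b ≠ z * a := by
    by_contra hcon
    push Not at hcon
    have := Fintype.ofFinite G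
    have h1 : (Finset.univ : Finset G) ⊆ {1, z, a, z * a} := by
      intro x _
      rw [mem_insert, mem_insert, mem_insert, mem_singleton]
      by_cases h : x = 1
      · exact Or.inl h
      by_cases h' : x = z
      · exact Or.inr (Or.inl h')
      by_cases h'' : x = a
      · exact Or.inr (Or.inr (Or.inl h''))
      · exact Or.inr (Or.inr (Or.inr (hcon x h h' h'')))
    have h2 := (Finset.card_le_card h1).trans Finset.card_le_four
    rw [Finset.card_univ, ← Nat.card_eq_fintype_card, hG] at h2
    omega
  have hainv : a⁻¹ = a ∨ a⁻¹ = z * a := by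
    rcases hsq a with h | h
    · exact Or.inl (inv_eq_of_mul_eq_one_left h)
    · right
      apply inv_eq_of_mul_eq_one_left
      rw [mul_assoc, h, hz]
  have hab1 : a * b ≠ 1 := by
    intro h
    have h7 : b = a⁻¹ := eq_inv_of_mul_eq_one_right h
    rcases hainv with h8 | h8
    · exact hba (h7.trans h8)
    · exact hbza (h7.trans h8)
  have habz : a * b ≠ z := by
    intro h
    have h7 : b = a⁻¹ * z := by rw [← h]; simp
    rcases hainv with h8 | h8
    · rw [h8, hcen] at h7
      exact hbza h7
    · rw [h8, mul_assoc, hcen, zz] at h7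
      exact hba h7
  have hK := keyK hG hcen hz hz1 H a b ha1 haz hb1 hbz hba hbza hab1 habz
  have haba : a * b ≠ a := by
    intro h; apply hb1
    have : a * b = a * 1 := by rw [mul_one]; exact h
    exact mul_left_cancel this
  have habza : a * b ≠ z * a := by
    intro h; apply hbz
    have : a * b = a * z := by rw [hcen]; exact h
    exact mul_left_cancel this
  have habb : a * b ≠ b := by
    intro h; apply ha1
    have : a * b = 1 * b := by rw [one_mul]; exact h
    exact mul_right_cancel this
  have habzb : a * b ≠ z * b := by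
    intro h; apply haz
    exact mul_right_cancel h
  rcases hcomm a b with hab | hab
  · -- abelian case
    exfalso
    have hsqab : (a * b) * (a * b) = (a * a) * (b * b) := by
      rw [mul_assoc, ← mul_assoc b a b, hab, mul_assoc a b b, ← mul_assoc]
    rcases hK with ⟨-, h5⟩ | ⟨h5, h6⟩
    · rw [hab] at h5
      exact hzx _ h5.symm
    · rcases hsq a with h7 | h7 <;> rcases hsq b with h8 | h8
      · -- all squares are 1
        have h9 : z * (a * b) * a = z * b := by
          rw [mul_assoc, mul_assoc, hab, ← mul_assoc a a b, h7, one_mul]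
        rw [h9] at h6
        rcases h6 with h6 | h6 | h6 | h6
        · apply hbz; rw [← zz b, h6, mul_one]
        · apply hbza; rw [← h6, zz]
        · exact hzx b h6
        · exact habb (mul_left_cancel h6).symm
      · rw [hsqab, h7, h8, one_mul] at h5
        exact hz1 h5
      · rw [hsqab, h7, h8, mul_one] at h5
        exact hz1 h5
      · -- squares of `a` and `b` are `z`
        have e1 : a * (a * b) = z * b := by rw [← mul_assoc, h7]
        rcases keyK hG hcen hz hz1 H a (a * b) ha1 haz hab1 habz haba habza (by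
          rw [e1]; intro h; apply hbz; rw [← zz b, h, mul_one]) (by
          rw [e1]; intro h; apply hb1
          have : z * b = z * 1 := by rw [mul_one]; exact h
          exact mul_left_cancel this) with ⟨-, h9⟩ | ⟨h9, -⟩
        · have h10 : a * b * a = a * (a * b) := by rw [mul_assoc, hab]
          rw [h10] at h9
          exact hzx _ h9.symm
        · rw [e1, mul_assoc, ← mul_assoc b z b, hcen b, mul_assoc z b b, zz, h8] at h9
          exact hz1 h9
  · -- `b a = z a b`
    have hsqab : (a * b) * (a * b) = z * ((a * a) * (b * b)) := by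
      rw [mul_assoc, ← mul_assoc b a b, hab, mul_assoc z, mul_assoc a b b, ← mul_assoc a z,
        hcen a, mul_assoc z a, ← mul_assoc a a]
    rcases hsq a with h7 | h7 <;> rcases hsq b with h8 | h8
    · -- `ρ = a b`, `t = a`
      apply d4_mk hG (a * b) a z hz1 hz (by rw [hsqab, h7, h8, mul_one, mul_one]) h7 ?_ ha1 haz
        haba.symm ?_
      · rw [← mul_assoc a a b, h7, one_mul, hab, ← hcen]
      · intro h
        apply habza
        rw [hcen] at h
        have h9 : z * a = z * (z * (a * b)) := congrArg (fun x => z * x) h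
        rw [h9, zz]
    · -- `ρ = b`, `t = a`
      apply d4_mk hG b a z hz1 hz h8 h7 ?_ ha1 haz hba.symm ?_
      · rw [mul_assoc, hab, ← mul_assoc a z, hcen a, mul_assoc z a, ← mul_assoc a a, h7, one_mul,
          hcen]
      · intro h
        apply hbza
        rw [h, hcen b, zz]
    · -- `ρ = a`, `t = b`
      apply d4_mk hG a b z hz1 hz h7 h8 ?_ hb1 hbz hba ?_
      · rw [hab, mul_assoc z, mul_assoc a b b, h8, mul_one, hcen]
      · intro h
        rw [hcen] at h
        exact hbza h
    · -- quaternion case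
      exfalso
      rcases hK with ⟨h5, -⟩ | ⟨h5, -⟩
      · rw [h8] at h5
        exact hz1 h5
      · rw [hsqab, h7, h8, hz, mul_one] at h5
        exact hz1 h5

end Eight

/-! ## From the action to the group -/

private theorem exists_inv {S G : Type} [Fintype S] [Group G] [Finite G] [MulAction G S] (z : G)
    (hG : Nat.card G = 8) (s₀ : S) (e d : S → ℤ) (he : IsSgn z e) (hd : Split z e d) :
    ∃ t : G, t ≠ 1 ∧ t * t = 1 ∧ ∀ s, e (t • s) = e s := by
  classical
  have := Fintype.ofFinite G
  obtain ⟨hd1, hd2, ⟨s1, hs1⟩, ⟨s2, hs2⟩, ⟨γ₁, hγ₁⟩, hall⟩ := hd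
  have he0 : ∀ s, e s ≠ 0 := by
    intro s h
    rcases he.1 s with h' | h' <;> rw [h] at h' <;> norm_num at h'
  let H : Subgroup G :=
    { carrier := {γ | ∀ s, e (γ • s) = e s}
      one_mem' := fun s => by rw [one_smul]
      mul_mem' := by
        intro x y hx hy s
        rw [mul_smul, hx, hy]
      inv_mem' := by
        intro x hx s
        have := hx (x⁻¹ • s)
        rw [smul_inv_smul] at this
        exact this.symm }
  have hH : ∀ γ, γ ∈ H ↔ ∀ s, e (γ • s) = e s := fun _ => Iff.rfl
  have hzH : z ∉ H := by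
    intro h
    have h1 := h s₀
    rw [he.2] at h1
    have := he0 s₀
    omega
  have hγH : γ₁ ∉ H := by
    intro h
    have h1 := h s2
    rw [hγ₁, hs2] at h1
    have := he0 s2
    omega
  have hγzH : γ₁ * z ∉ H := by
    intro h
    have h1 := h s1
    rw [mul_smul, hγ₁, hd2, he.2, hs1] at h1
    have := he0 s1
    omega
  have hidx : 3 ≤ H.index := by
    have h1 : (QuotientGroup.mk 1 : G ⧸ H) ≠ QuotientGroup.mk z := by
      intro h
      rw [QuotientGroup.eq] at h
      apply hzH
      simpa using h
    have h2 : (QuotientGroup.mk 1 : G ⧸ H) ≠ QuotientGroup.mk γ₁⁻¹ := by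
      intro h
      rw [QuotientGroup.eq] at h
      apply hγH
      simpa using h
    have h3 : (QuotientGroup.mk z : G ⧸ H) ≠ QuotientGroup.mk γ₁⁻¹ := by
      intro h
      rw [QuotientGroup.eq] at h
      apply hγzH
      have h4 := H.inv_mem h
      simpa using h4
    have h4 : ({QuotientGroup.mk 1, QuotientGroup.mk z, QuotientGroup.mk γ₁⁻¹} :
        Finset (G ⧸ H)).card = 3 := Finset.card_eq_three.2 ⟨_, _, _, h1, h2, h3, rfl⟩
    have h5 := Finset.card_le_univ ({QuotientGroup.mk 1, QuotientGroup.mk z,
      QuotientGroup.mk γ₁⁻¹} : Finset (G ⧸ H))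
    rw [h4, ← Nat.card_eq_fintype_card] at h5
    exact h5
  have hmul := H.card_mul_index
  rw [hG] at hmul
  have hcardpos : 0 < Nat.card H := Nat.card_pos
  have hcard : Nat.card H = 1 ∨ Nat.card H = 2 := by
    have : Nat.card H ≤ 2 := by
      by_contra hc
      have : 3 ≤ Nat.card H := by omega
      have h9 : 3 * 3 ≤ Nat.card H * H.index := Nat.mul_le_mul this hidx
      omega
    omega
  have hsq : ∀ t ∈ H, t * t = 1 := by
    intro t ht
    have h1 : (⟨t, ht⟩ : H) ^ Nat.card H = 1 := pow_card_eq_one'
    have h2 : t ^ Nat.card H = 1 := by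
      have := congrArg (Subtype.val) h1
      simpa only [Subgroup.coe_pow, Subgroup.coe_one] using this
    rcases hcard with h | h
    · rw [h, pow_one] at h2
      rw [h2, mul_one]
    · rw [h, pow_two] at h2
      exact h2
  by_contra hcon
  have hbot : ∀ t ∈ H, t = 1 := by
    intro t ht
    by_contra h
    exact hcon ⟨t, h, hsq t ht, ht⟩
  have hinj : Function.Injective (fun γ : G => fun s : S => e (γ • s)) := by
    intro x y hxy
    have h1 : x * y⁻¹ ∈ H := by
      intro s
      have := congrFun hxy (y⁻¹ • s)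
      simp only [smul_inv_smul] at this
      rw [mul_smul]
      exact this
    have := hbot _ h1
    rwa [mul_inv_eq_one] at this
  have hmaps : ∀ γ ∈ (Finset.univ : Finset G), (fun s : S => e (γ • s)) ∈
      ({e, fun s => - e s, fun s => d s * e s, fun s => - (d s * e s)} : Finset (S → ℤ)) := by
    intro γ _
    simp only [mem_insert, mem_singleton]
    rcases hall γ with h | h | h | h
    · exact Or.inl (funext h)
    · exact Or.inr (Or.inl (funext h))
    · exact Or.inr (Or.inr (Or.inl (funext h)))
    · exact Or.inr (Or.inr (Or.inr (funext h)))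
  have h1 := Finset.card_le_card_of_injOn _ hmaps hinj.injOn
  have h2 := h1.trans Finset.card_le_four
  rw [Finset.card_univ, ← Nat.card_eq_fintype_card, hG] at h2
  omega

theorem pD4 : StD4 := by
  intro S G _ _ _ _ _ z hcen hz hzs hS hfree hsplit
  classical
  have hne : Nonempty S := by
    by_contra h
    rw [not_nonempty_iff] at h
    rw [Nat.card_of_isEmpty] at hS
    omega
  obtain ⟨s₀⟩ := hne
  have hz1 : z ≠ 1 := by
    intro h
    apply hzs s₀
    rw [h, one_smul]
  choose g hg using fun s : S => MulAction.exists_smul_eq G s₀ s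
  have hinj : ∀ x y : G, x • s₀ = y • s₀ → x = y := by
    intro x y h
    have h1 : (y⁻¹ * x) • s₀ = s₀ := by rw [mul_smul, h, inv_smul_smul]
    have h2 := hfree _ _ h1
    rw [inv_mul_eq_one] at h2
    exact h2.symm
  have hG : Nat.card G = 8 := by
    rw [← hS]
    apply Nat.card_congr
    exact Equiv.ofBijective (fun x : G => x • s₀) ⟨fun x y h => hinj x y h, fun s => ⟨g s, hg s⟩⟩
  have hgm : ∀ (γ : G) (s : S), g (γ • s) = γ * g s := by
    intro γ s
    apply hinj
    rw [hg, mul_smul, hg]
  apply eightCase hG hcen hz hz1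
  intro E hE1 hE2
  have he : IsSgn z (fun s => E (g s)) := by
    refine ⟨fun s => hE1 _, fun s => ?_⟩
    show E (g (z • s)) = - E (g s)
    rw [hgm, hE2]
  obtain ⟨d, hd⟩ := hsplit _ he
  obtain ⟨t, ht1, htt, ht⟩ := exists_inv z hG s₀ _ d he hd
  refine ⟨t, ht1, htt, fun γ => ?_⟩
  have h1 := ht (γ • s₀)
  have h2 : g (γ • s₀) = γ := hinj _ _ (hg _)
  simp only [hgm] at h1
  rw [← hgm, h2] at h1
  exact h1

end Pool.Agent.Lib.MP_640417_ag.Cls
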