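import Pool.Agent.Lib.MP_640417_ag.Cls.Spec
import Pool.Agent.Lib.MP_640417_ag.Sharp.CorrG

/-!
# The Galois group of a Galois CM field
-/

set_option autoImplicit false

namespace Pool.Agent.Lib.MP_640417_ag.Cls

open Module Finset MulAction NumberField Pool.Agent.Lib.MP_640417_ag
  Pool.Agent.Lib.MP_640417_ag.Far Pool.Agent.Lib.MP_640417_ag.Full
  Pool.Agent.Lib.MP_640417_ag.Sharp

private lemma field_top {E : Type} [Field E] [NumberField E] (φ₀ : Emb E) :
    fixAt φ₀ (stabilizer (galGroup E) φ₀) = ⊤ := by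
  rw [eq_top_iff]
  intro x _
  rw [mem_fixAt]
  intro ν hν
  have h : ν • φ₀ = φ₀ := hν
  rw [h]

private lemma field_galois {E : Type} [Field E] [NumberField E] (n : ℕ)
    (K : IntermediateField ℚ E) (hK : K = ⊤) :
    (IsGalois ℚ K ∧ Nonempty ((K ≃ₐ[ℚ] K) ≃* DihedralGroup n)) ↔
      (IsGalois ℚ E ∧ Nonempty ((E ≃ₐ[ℚ] E) ≃* DihedralGroup n)) := by
  subst hK
  have e : (⊤ : IntermediateField ℚ E) ≃ₐ[ℚ] E := IntermediateField.topEquiv
  constructor
  · rintro ⟨h1, ⟨f⟩⟩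
    exact ⟨IsGalois.of_algEquiv e, ⟨(AlgEquiv.autCongr e).symm.trans f⟩⟩
  · rintro ⟨h1, ⟨f⟩⟩
    exact ⟨IsGalois.of_algEquiv e.symm, ⟨(AlgEquiv.autCongr e).trans f⟩⟩

private lemma field_free {S G : Type} [Group G] [MulAction G S] [IsPretransitive G S]
    [FaithfulSMul G S] (s₀ : S) (hn : (stabilizer G s₀).Normal) :
    ∀ (γ : G) (s : S), γ • s = s → γ = 1 := by
  have h1 : ∀ (γ : G), γ ∈ stabilizer G s₀ → γ = 1 := by
    intro γ hγ
    apply FaithfulSMul.eq_of_smul_eq_smul (α := S)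
    intro s
    obtain ⟨δ, rfl⟩ := exists_smul_eq G s₀ s
    have h2 := hn.conj_mem γ hγ δ⁻¹
    rw [inv_inv] at h2
    have h3 : (δ⁻¹ * γ * δ) • s₀ = s₀ := h2
    rw [mul_smul, mul_smul, inv_smul_eq_iff] at h3
    rw [h3, one_smul]
  intro γ s hs
  obtain ⟨δ, rfl⟩ := exists_smul_eq G s₀ s
  have h2 : (δ⁻¹ * γ * δ) • s₀ = s₀ := by
    rw [mul_smul, mul_smul, inv_smul_eq_iff, hs]
  have h3 := h1 _ h2
  have h4 : γ = δ * (δ⁻¹ * γ * δ) * δ⁻¹ := by group
  rw [h4, h3]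
  group

private lemma field_dih {S G : Type} [Group G] [MulAction G S] [IsPretransitive G S]
    [FaithfulSMul G S] (s₀ : S) (n : ℕ) : IsDih n (stabilizer G s₀) ↔
    (∀ (γ : G) (s : S), γ • s = s → γ = 1) ∧ Nonempty (G ≃* DihedralGroup n) := by
  have hbot : (∀ (γ : G) (s : S), γ • s = s → γ = 1) → stabilizer G s₀ = ⊥ := by
    intro h
    rw [eq_bot_iff]
    intro γ hγ
    rw [Subgroup.mem_bot]
    exact h γ s₀ hγ
  constructor
  · rintro ⟨hn, ⟨f⟩⟩
    have hfree := field_free s₀ hn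
    have hb := hbot hfree
    exact ⟨hfree, ⟨(QuotientGroup.quotientBot.symm.trans
      (QuotientGroup.quotientMulEquivOfEq hb.symm)).trans f⟩⟩
  · rintro ⟨hfree, ⟨f⟩⟩
    have hb := hbot hfree
    have hn : (stabilizer G s₀).Normal := by
      rw [hb]
      infer_instance
    exact ⟨hn, ⟨((QuotientGroup.quotientMulEquivOfEq hb).trans
      QuotientGroup.quotientBot).trans f⟩⟩

theorem pField : StField := by
  intro E _ _ _ n
  classical
  obtain ⟨φ₀⟩ : Nonempty (Emb E) := by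
    rw [← Fintype.card_pos_iff, card_emb]
    exact finrank_pos
  obtain ⟨cc, hcc⟩ := exists_galEmb_conj E
  let act := galAction E
  let z : galGroup E := ⟨MulAction.toPermHom AbsGal (Emb E) cc, ⟨cc, rfl⟩⟩
  have hzs : ∀ φ : Emb E, z • φ = conjEmb φ := fun φ => hcc φ
  have hpre : IsPretransitive (galGroup E) (Emb E) := isPretransitive_galGroup
  have hfaith : FaithfulSMul (galGroup E) (Emb E) := by
    refine ⟨fun {a b} h => ?_⟩
    apply Subtype.ext
    apply Equiv.ext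
    exact h
  have h1 := pCorrG E φ₀ z hzs (stabilizer (galGroup E) φ₀) le_rfl n
  rw [← field_galois n _ (field_top φ₀), ← h1]
  exact field_dih φ₀ n

end Pool.Agent.Lib.MP_640417_ag.Cls
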