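import Pool.Agent.Lib.MP_640417_ag.Cls.Spec

/-!
# Sets with four elements
-/

namespace Pool.Agent.Lib.MP_640417_ag.Cls

open Module Finset MulAction NumberField

private theorem four_pts {S G : Type} [Fintype S] [Group G] [MulAction G S] (z : G)
    (hzz : z * z = 1) (hfix : ∀ s : S, z • s ≠ s) (hcard : Nat.card S = 4) :
    ∃ s₀ s₁ : S, s₁ ≠ s₀ ∧ s₁ ≠ z • s₀ ∧ z • s₁ ≠ s₀ ∧ z • s₁ ≠ z • s₀ ∧
      (∀ s, s = s₀ ∨ s = z • s₀ ∨ s = s₁ ∨ s = z • s₁) ∧
      ∀ f : S → ℤ, ∑ s, f s = f s₀ + f (z • s₀) + f s₁ + f (z • s₁) := by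
  classical
  rw [Nat.card_eq_fintype_card] at hcard
  have hne : Nonempty S := by
    rw [← Fintype.card_pos_iff]; omega
  obtain ⟨s₀⟩ := hne
  have hinj : ∀ a b : S, z • a = z • b → a = b := fun a b h => MulAction.injective z h
  have hz2 : ∀ a : S, z • z • a = a := by
    intro a; rw [← mul_smul, hzz, one_smul]
  have hex : ∃ s₁, s₁ ∉ ({s₀, z • s₀} : Finset S) := by
    by_contra hno
    push Not at hno
    have h1 : (univ : Finset S) ⊆ {s₀, z • s₀} := fun s _ => hno s
    have h2 := card_le_card h1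
    rw [card_univ, hcard] at h2
    have h3 : ({s₀, z • s₀} : Finset S).card ≤ 2 := card_le_two
    omega
  obtain ⟨s₁, hs₁⟩ := hex
  simp only [mem_insert, mem_singleton, not_or] at hs₁
  obtain ⟨h10, h1z⟩ := hs₁
  have hz1 : z • s₁ ≠ s₀ := by
    intro h
    apply h1z
    rw [← h, hz2]
  have hz1' : z • s₁ ≠ z • s₀ := fun h => h10 (hinj _ _ h)
  have hc4 : ({s₀, z • s₀, s₁, z • s₁} : Finset S).card = 4 := by
    rw [card_insert_of_notMem, card_insert_of_notMem, card_insert_of_notMem, card_singleton]
    · rw [mem_singleton]; exact (hfix s₁).symm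
    · rw [mem_insert, mem_singleton, not_or]; exact ⟨Ne.symm h1z, hz1'.symm⟩
    · rw [mem_insert, mem_insert, mem_singleton, not_or, not_or]
      exact ⟨(hfix s₀).symm, Ne.symm h10, hz1.symm⟩
  have huniv : (univ : Finset S) = {s₀, z • s₀, s₁, z • s₁} := by
    symm
    apply eq_univ_of_card
    rw [hc4, hcard]
  refine ⟨s₀, s₁, h10, h1z, hz1, hz1', ?_, ?_⟩
  · intro s
    have := mem_univ s
    rw [huniv] at this
    simpa using this
  · intro f
    rw [huniv, sum_insert, sum_insert, sum_insert, sum_singleton]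
    · ring
    · rw [mem_singleton]; exact (hfix s₁).symm
    · rw [mem_insert, mem_singleton, not_or]; exact ⟨Ne.symm h1z, hz1'.symm⟩
    · rw [mem_insert, mem_insert, mem_singleton, not_or, not_or]
      exact ⟨(hfix s₀).symm, Ne.symm h10, hz1.symm⟩

theorem pFour : StFour := by
  classical
  intro S G _ _ _ _ _ _ z hz hzz hfix hcard hbad
  obtain ⟨s₀, s₁, h10, h1z, hz1, hz1', hall, hsum⟩ := four_pts z hzz hfix hcard
  have hz2 : ∀ a : S, z • z • a = a := by
    intro a; rw [← mul_smul, hzz, one_smul]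
  -- every sign function is stable
  have hst : ∀ e : S → ℤ, IsSgn z e → ∀ γ : G, ∃ c : ℤ, (c = 1 ∨ c = -1) ∧
      ∀ s, e (γ • s) = c * e s := by
    intro e he γ
    have hodd : ∀ (γ : G) (s : S), e (γ • z • s) = - e (γ • s) := by
      intro γ s
      rw [← mul_smul, hz, mul_smul, he.2]
    have hsq : ∀ s, e s * e s = 1 := by
      intro s
      rcases he.1 s with h | h <;> rw [h] <;> norm_num
    have hv : ∃ v ∈ oddRel z e, v ≠ 0 := by
      by_contra hno
      push Not at hno
      exact hbad ⟨e, he, hno⟩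
    obtain ⟨v, ⟨hv1, hv2⟩, hv0⟩ := hv
    have key : ∀ γ : G, v s₀ * e (γ • s₀) = - (v s₁ * e (γ • s₁)) := by
      intro γ
      have h := hv2 γ
      rw [hsum, hv1, hv1, hodd, hodd] at h
      linarith
    have k1 := key 1
    rw [one_smul, one_smul] at k1
    have hv10 : v s₁ = - (v s₀ * e s₀ * e s₁) := by
      linear_combination (e s₁) * k1 - v s₁ * hsq s₁
    have hvne : v s₀ ≠ 0 := by
      intro h0
      apply hv0
      have h1 : v s₁ = 0 := by rw [hv10, h0]; ring
      funext s
      rcases hall s with h | h | h | h <;> rw [h] <;> simp [hv1, h0, h1]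
    have hrel : e (γ • s₀) * e s₀ = e (γ • s₁) * e s₁ := by
      have h := key γ
      rw [hv10] at h
      have h2 : v s₀ * (e (γ • s₀) - e s₀ * e s₁ * e (γ • s₁)) = 0 := by
        linear_combination h
      have h3 := (mul_eq_zero.1 h2).resolve_left hvne
      linear_combination (e s₀) * h3 + (e s₁ * e (γ • s₁)) * hsq s₀
    refine ⟨e (γ • s₀) * e s₀, ?_, ?_⟩
    · rcases he.1 (γ • s₀) with h | h <;> rcases he.1 s₀ with h' | h' <;> rw [h, h'] <;> norm_num
    · intro s
      rcases hall s with h | h | h | h <;> rw [h]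
      · linear_combination (-e (γ • s₀)) * hsq s₀
      · rw [hodd, he.2]
        linear_combination (e (γ • s₀)) * hsq s₀
      · linear_combination (-e (γ • s₁)) * hsq s₁ - (e s₁) * hrel
      · rw [hodd, he.2]
        linear_combination (e (γ • s₁)) * hsq s₁ + (e s₁) * hrel
  -- two sign functions
  set e : S → ℤ := fun s => if s = s₀ ∨ s = s₁ then 1 else -1 with he_def
  set e' : S → ℤ := fun s => if s = z • s₀ ∨ s = s₁ then 1 else -1 with he'_def
  have e0 : e s₀ = 1 := by simp [he_def]
  have e1 : e s₁ = 1 := by simp [he_def]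
  have ez0 : e (z • s₀) = -1 := by
    simp only [he_def]
    rw [if_neg]
    rintro (h | h)
    · exact hfix s₀ h
    · exact h1z h.symm
  have ez1 : e (z • s₁) = -1 := by
    simp only [he_def]
    rw [if_neg]
    rintro (h | h)
    · exact hz1 h
    · exact hfix s₁ h
  have e0' : e' s₀ = -1 := by
    simp only [he'_def]
    rw [if_neg]
    rintro (h | h)
    · exact hfix s₀ h.symm
    · exact h10 h.symm
  have e1' : e' s₁ = 1 := by simp [he'_def]
  have ez0' : e' (z • s₀) = 1 := by simp [he'_def]
  have ez1' : e' (z • s₁) = -1 := by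
    simp only [he'_def]
    rw [if_neg]
    rintro (h | h)
    · exact hz1' h
    · exact hfix s₁ h
  have he : IsSgn z e := by
    refine ⟨fun s => ?_, fun s => ?_⟩
    · simp only [he_def]; split_ifs <;> simp
    · rcases hall s with h | h | h | h <;> rw [h]
      · rw [ez0, e0]
      · rw [hz2, ez0, e0]; norm_num
      · rw [ez1, e1]
      · rw [hz2, ez1, e1]; norm_num
  have he' : IsSgn z e' := by
    refine ⟨fun s => ?_, fun s => ?_⟩
    · simp only [he'_def]; split_ifs <;> simp
    · rcases hall s with h | h | h | h <;> rw [h]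
      · rw [ez0', e0']; norm_num
      · rw [hz2, ez0', e0']
      · rw [ez1', e1']
      · rw [hz2, ez1', e1']; norm_num
  have hsep : ∀ s t : S, e s = e t → e' s = e' t → s = t := by
    intro s t h h'
    rcases hall s with hs | hs | hs | hs <;> rcases hall t with ht | ht | ht | ht <;>
      first
        | (rw [hs, ht]; done)
        | (exfalso; rw [hs, ht] at h; norm_num [e0, e1, ez0, ez1] at h; done)
        | (exfalso; rw [hs, ht] at h'; norm_num [e0', e1', ez0', ez1'] at h'; done)
  have hone : ∀ γ : G, (∀ s, e (γ • s) = e s) → (∀ s, e' (γ • s) = e' s) → γ = 1 := by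
    intro γ h h'
    apply FaithfulSMul.eq_of_smul_eq_smul (α := S)
    intro s
    rw [one_smul]
    exact hsep _ _ (h s) (h' s)
  have hne : ∀ (f : S → ℤ), IsSgn z f → ∀ s, f s ≠ 0 := by
    intro f hf s
    rcases hf.1 s with h | h <;> rw [h] <;> norm_num
  have hfree : ∀ (γ : G) (s : S), γ • s = s → γ = 1 := by
    intro γ s hs
    have haux : ∀ f : S → ℤ, IsSgn z f → ∀ t, f (γ • t) = f t := by
      intro f hf
      obtain ⟨c, -, hc⟩ := hst f hf γ
      have h1 := hc s
      rw [hs] at h1
      have h2 : c = 1 := by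
        have h3 : (c - 1) * f s = 0 := by linear_combination -h1
        have h4 := (mul_eq_zero.1 h3).resolve_right (hne f hf s)
        linarith
      intro t
      rw [hc t, h2, one_mul]
    exact hone γ (haux e he) (haux e' he')
  have hsq : ∀ γ : G, γ * γ = 1 := by
    intro γ
    have haux : ∀ f : S → ℤ, IsSgn z f → ∀ t, f ((γ * γ) • t) = f t := by
      intro f hf t
      obtain ⟨c, hc1, hc⟩ := hst f hf γ
      rw [mul_smul, hc, hc]
      rcases hc1 with h | h <;> rw [h] <;> ring
    exact hone _ (haux e he) (haux e' he')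
  refine ⟨hfree, ?_⟩
  have hbij : Function.Bijective (fun γ : G => γ • s₀) := by
    constructor
    · intro a b hab
      have hab' : a • s₀ = b • s₀ := hab
      have h1 : (b⁻¹ * a) • s₀ = s₀ := by
        rw [mul_smul, hab', ← mul_smul, inv_mul_cancel, one_smul]
      have h2 := hfree _ _ h1
      exact (inv_mul_eq_one.1 h2).symm
    · intro s
      exact MulAction.exists_smul_eq G s₀ s
  have hG4 : Nat.card G = 4 := by
    rw [Nat.card_congr (Equiv.ofBijective _ hbij), hcard]
  have hexp : Monoid.exponent G = 2 := by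
    have h1 : Monoid.exponent G ∣ 2 :=
      Monoid.exponent_dvd_of_forall_pow_eq_one (fun g => by rw [pow_two]; exact hsq g)
    rcases (Nat.dvd_prime Nat.prime_two).1 h1 with h | h
    · exfalso
      have hsub : Subsingleton G := Monoid.exp_eq_one_iff.1 h
      have : Nat.card G = 1 := Nat.card_unique
      omega
    · exact h
  have : IsKleinFour G := ⟨hG4, hexp⟩
  exact IsKleinFour.nonempty_mulEquiv

end Pool.Agent.Lib.MP_640417_ag.Cls
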