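import Pool.Agent.Lib.MP_640417_ag.Cls.Spec

/-!
# A stable sign function gives a good sign function
-/

namespace Pool.Agent.Lib.MP_640417_ag.Cls

open Module Finset MulAction NumberField

theorem pLine : StLine := by
  classical
  intro S G _ _ _ _ z hz hz2 hzs s₀ w hw hcard
  obtain ⟨⟨hwpm, hwz⟩, hst⟩ := hw
  -- the perturbed sign function
  let e : S → ℤ := fun s => if s = s₀ ∨ s = z • s₀ then - w s else w s
  have hzz : ∀ s : S, z • z • s = s := by
    intro s
    rw [← mul_smul, hz2, one_smul]
  have he : IsSgn z e := by
    refine ⟨fun s => ?_, fun s => ?_⟩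
    · simp only [e]
      rcases hwpm s with h | h <;> split_ifs <;> simp [h]
    · have h1 : (z • s = s₀ ∨ z • s = z • s₀) ↔ (s = s₀ ∨ s = z • s₀) := by
        constructor
        · rintro (h | h)
          · right; rw [← h, hzz]
          · left; exact MulAction.injective z h
        · rintro (h | h)
          · right; rw [h]
          · left; rw [h, hzz]
      simp only [e, h1]
      split_ifs
      · rw [hwz]
      · rw [hwz]
  have hsum : ∀ v ∈ oddRel z e, ∑ s, v s * w s = 4 * (v s₀ * w s₀) := by
    intro v hv
    have h1 := hv.2 1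
    simp only [one_smul] at h1
    have h2 : ∀ s, v s * e s = v s * w s - (if s = s₀ then 2 * (v s * w s) else 0)
        - (if s = z • s₀ then 2 * (v s * w s) else 0) := by
      intro s
      by_cases ha : s = s₀
      · simp only [e, ha, true_or, if_true]
        rw [if_neg (fun h => hzs s₀ h.symm)]
        ring
      · by_cases hb : s = z • s₀
        · simp only [e, hb, or_true, if_true]
          rw [if_neg (hzs s₀)]
          ring
        · simp only [e, ha, hb, or_false, if_false]
          ring
    rw [Finset.sum_congr rfl (fun s _ => h2 s), Finset.sum_sub_distrib, Finset.sum_sub_distrib,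
      Finset.sum_ite_eq' Finset.univ s₀, Finset.sum_ite_eq' Finset.univ (z • s₀)] at h1
    simp only [Finset.mem_univ, if_true, hv.1, hwz] at h1
    linarith
  refine ⟨e, he, fun v hv => ?_⟩
  -- `v w` is constant
  have hconst : ∀ s, v s * w s = v s₀ * w s₀ := by
    intro s
    obtain ⟨γ, rfl⟩ := MulAction.exists_smul_eq G s₀ s
    have h1 := hsum _ (oddRel_comp z hz e γ v hv)
    have h2 : ∑ s, v (γ • s) * w s = ∑ s, v s * w (γ⁻¹ • s) := by
      rw [← Equiv.sum_comp (MulAction.toPerm γ) (fun s => v s * w (γ⁻¹ • s))]
      apply Finset.sum_congr rfl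
      intro s _
      simp only [MulAction.toPerm_apply, inv_smul_smul]
    rw [h2] at h1
    have h3 := hsum v hv
    rcases hst γ with h | h
    · have h4 : ∀ s, w (γ⁻¹ • s) = w s := by
        intro s
        rw [← h (γ⁻¹ • s), smul_inv_smul]
      simp only [h4] at h1
      rw [h s₀]
      linarith
    · have h4 : ∀ s, w (γ⁻¹ • s) = - w s := by
        intro s
        have := h (γ⁻¹ • s)
        rw [smul_inv_smul] at this
        linarith
      simp only [h4, mul_neg, Finset.sum_neg_distrib] at h1
      rw [h s₀]
      linarith
  have hc : v s₀ * w s₀ = 0 := by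
    have h1 := hsum v hv
    rw [Finset.sum_congr rfl (fun s _ => hconst s), Finset.sum_const, Finset.card_univ,
      nsmul_eq_mul] at h1
    have h2 : ((Fintype.card S : ℤ) - 4) * (v s₀ * w s₀) = 0 := by linarith
    rcases mul_eq_zero.1 h2 with h3 | h3
    · exfalso
      apply hcard
      rw [Nat.card_eq_fintype_card]
      omega
    · exact h3
  funext s
  have h1 := hconst s
  rw [hc] at h1
  rcases hwpm s with h | h
  · rw [h, mul_one] at h1
    exact h1
  · rw [h] at h1
    simp only [Pi.zero_apply]
    linarith

end Pool.Agent.Lib.MP_640417_ag.Cls
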