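import Pool.Agent.Lib.MP_640417_ag.Cls.Spec

/-!
# Eight elements: the action is free
-/

namespace Pool.Agent.Lib.MP_640417_ag.Cls

open Module Finset MulAction NumberField

section aux

variable {S G : Type} [Group G] [MulAction G S]

private def Q4 (d f : S → ℤ) : Prop :=
  (∀ s, f s = 1) ∨ (∀ s, f s = -1) ∨ (∀ s, f s = d s) ∨ (∀ s, f s = - d s)

private theorem q4_mul {d f g : S → ℤ} (hd : ∀ s, d s = 1 ∨ d s = -1) (hf : Q4 d f)
    (hg : Q4 d g) : Q4 d (fun s => f s * g s) := by
  have hdd : ∀ s, d s * d s = 1 := fun s => by rcases hd s with h | h <;> rw [h] <;> norm_num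
  rcases hf with hf | hf | hf | hf <;> rcases hg with hg | hg | hg | hg
  all_goals first
    | exact Or.inl fun s => by simp only [hf s, hg s]; linarith [hdd s]
    | exact Or.inr (Or.inl fun s => by simp only [hf s, hg s]; linarith [hdd s])
    | exact Or.inr (Or.inr (Or.inl fun s => by simp only [hf s, hg s]; linarith [hdd s]))
    | exact Or.inr (Or.inr (Or.inr fun s => by simp only [hf s, hg s]; linarith [hdd s]))

private theorem sgn_sq {z : G} {e : S → ℤ} (he : IsSgn z e) (s : S) : e s * e s = 1 := by
  rcases he.1 s with h | h <;> rw [h] <;> norm_num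

private theorem split_q4 {z : G} {e d : S → ℤ} (he : IsSgn z e) (hs : Split z e d) (γ : G) :
    Q4 d (fun s => e (γ • s) * e s) := by
  rcases hs.2.2.2.2.2 γ with h | h | h | h
  · exact Or.inl fun s => by simp only [h s]; exact sgn_sq he s
  · exact Or.inr (Or.inl fun s => by simp only [h s]; linear_combination - sgn_sq he s)
  · exact Or.inr (Or.inr (Or.inl fun s => by
      simp only [h s]; linear_combination (d s) * sgn_sq he s))
  · exact Or.inr (Or.inr (Or.inr fun s => by
      simp only [h s]; linear_combination - (d s) * sgn_sq he s))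

private theorem split_comp {z : G} {e d : S → ℤ} (he : IsSgn z e) (hs : Split z e d) (γ : G) :
    (∀ s, d (γ • s) = d s) ∨ (∀ s, d (γ • s) = - d s) := by
  obtain ⟨hd, -, ⟨a, ha⟩, ⟨b, hb⟩, ⟨γ₁, h₁⟩, -⟩ := id hs
  have h4 := q4_mul hd (split_q4 he hs (γ₁ * γ)) (split_q4 he hs γ)
  have h5 : (fun s => (e ((γ₁ * γ) • s) * e s) * (e (γ • s) * e s)) = fun s => d (γ • s) := by
    funext s
    rw [mul_smul, h₁ (γ • s)]
    linear_combination (d (γ • s) * (e s * e s)) * sgn_sq he (γ • s) + d (γ • s) * sgn_sq he s
  rw [h5] at h4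
  rcases h4 with h | h | h | h
  · have := h (γ⁻¹ • b)
    simp only [smul_inv_smul] at this
    omega
  · have := h (γ⁻¹ • a)
    simp only [smul_inv_smul] at this
    omega
  · exact Or.inl h
  · exact Or.inr h

private theorem split_neg {z : G} {e d : S → ℤ} (he : IsSgn z e) (hs : Split z e d) :
    Split z e (fun s => - d s) := by
  obtain ⟨hd, hdz, ⟨a, ha⟩, ⟨b, hb⟩, ⟨γ₁, h₁⟩, h⟩ := hs
  refine ⟨fun s => ?_, fun s => ?_, ⟨b, ?_⟩, ⟨a, ?_⟩, ⟨γ₁ * z, fun s => ?_⟩, fun γ => ?_⟩
  · dsimp only
    rcases hd s with h | h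
    · right
      rw [h]
    · left
      rw [h]
      rfl
  · simp only [hdz]
  · simp only [hb]
    rfl
  · simp only [ha]
  · rw [mul_smul, h₁, hdz, he.2]
    ring
  · rcases h γ with h | h | h | h
    · exact Or.inl h
    · exact Or.inr (Or.inl h)
    · right; right; right
      intro s
      rw [h s]
      ring
    · right; right; left
      intro s
      rw [h s]
      ring

private theorem sum_zero [Fintype S] {d : S → ℤ} (γ : G) (h : ∀ s, d (γ • s) = - d s) :
    ∑ s, d s = 0 := by
  have h1 : ∑ s, d s = ∑ s, d (γ • s) :=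
    (Fintype.sum_bijective (fun s => γ • s) (MulAction.bijective γ) _ _ fun _ => rfl).symm
  simp only [h, sum_neg_distrib] at h1
  omega

private theorem card_neg [Fintype S] {d : S → ℤ} (hcard : Nat.card S = 8)
    (hd : ∀ s, d s = 1 ∨ d s = -1) (h : ∑ s, d s = 0) :
    (univ.filter fun s => d s = -1).card = 4 ∧ (univ.filter fun s => d s = 1).card = 4 := by
  rw [Nat.card_eq_fintype_card] at hcard
  have h1 : ∀ s, d s = 1 - 2 * (if d s = -1 then 1 else 0) := by
    intro s
    rcases hd s with h | h <;> rw [h] <;> norm_num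
  have h2 : ∀ s, d s = 2 * (if d s = 1 then 1 else 0) - 1 := by
    intro s
    rcases hd s with h | h <;> rw [h] <;> norm_num
  constructor
  · rw [sum_congr rfl fun s _ => h1 s, sum_sub_distrib, ← mul_sum, sum_boole] at h
    simp only [sum_const, card_univ, hcard] at h
    norm_num at h
    omega
  · rw [sum_congr rfl fun s _ => h2 s, sum_sub_distrib, ← mul_sum, sum_boole] at h
    simp only [sum_const, card_univ, hcard] at h
    norm_num at h
    omega

private theorem exists_sgn [Fintype S] {z : G} (hzz : z * z = 1) (hfree : ∀ s : S, z • s ≠ s) :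
    ∃ e : S → ℤ, IsSgn z e := by
  refine ⟨fun s => if Fintype.equivFin S s < Fintype.equivFin S (z • s) then 1 else -1,
    fun s => ?_, fun s => ?_⟩
  · dsimp only
    split_ifs
    · exact Or.inl rfl
    · exact Or.inr rfl
  · have h1 : z • z • s = s := by rw [← mul_smul, hzz, one_smul]
    have h2 : Fintype.equivFin S s ≠ Fintype.equivFin S (z • s) :=
      fun h => hfree s ((Fintype.equivFin S).injective h).symm
    simp only [h1]
    rcases lt_or_gt_of_ne h2 with h | h
    · rw [if_neg (not_lt.2 h.le), if_pos h]
    · rw [if_pos h, if_neg (not_lt.2 h.le)]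
      rfl

end aux

theorem pReg : StReg := by
  classical
  intro S G _ _ _ _ _ z hz hzz hfree hcard H h s₀ hs₀
  by_contra hne
  have hzz' : ∀ s : S, z • z • s = s := fun s => by rw [← mul_smul, hzz, one_smul]
  have hhz : ∀ (γ : G) (s : S), γ • z • s = z • γ • s := fun γ s => by
    rw [← mul_smul, hz, mul_smul]
  have H' : ∀ e : S → ℤ, IsSgn z e → ∃ d : S → ℤ, Split z e d ∧ d s₀ = 1 := by
    intro e he
    obtain ⟨d, hd⟩ := H e he
    rcases hd.1 s₀ with h1 | h1
    · exact ⟨d, hd, h1⟩
    · refine ⟨_, split_neg he hd, ?_⟩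
      rw [h1]
      rfl
  -- a permutation which changes the sign
  have hflip : ∀ e d : S → ℤ, IsSgn z e → Split z e d → d s₀ = 1 →
      ∃ γ : G, ∀ s, d (γ • s) = - d s := by
    intro e d he hd h0
    obtain ⟨b, hb⟩ := hd.2.2.2.1
    obtain ⟨γ, hγ⟩ := MulAction.exists_smul_eq G s₀ b
    refine ⟨γ, ?_⟩
    rcases split_comp he hd γ with h1 | h1
    · have := h1 s₀
      rw [hγ] at this
      omega
    · exact h1
  have key : ∀ e e' d d' : S → ℤ, IsSgn z e → IsSgn z e' → Split z e d → Split z e' d' →
      d s₀ = 1 → d' s₀ = 1 → d = d' := by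
    by_cases hc : ∀ s : S, h • s = s ∨ h • s = z • s
    · -- first case
      obtain ⟨s₁, hs₁⟩ : ∃ s₁ : S, h • s₁ ≠ s₁ := by
        by_contra hcon
        push Not at hcon
        exact hne (FaithfulSMul.eq_of_smul_eq_smul (α := S) fun s => by rw [hcon s, one_smul])
      have hs₁' : h • s₁ = z • s₁ := (hc s₁).resolve_left hs₁
      have hmain : ∀ e d : S → ℤ, IsSgn z e → Split z e d → d s₀ = 1 →
          ∀ s, (h • s = s → d s = 1) ∧ (h • s = z • s → d s = -1) := by
        intro e d he hd h0 s
        rcases hd.2.2.2.2.2 h with h1 | h1 | h1 | h1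
        · exfalso
          have h2 := h1 s₁
          rw [hs₁', he.2] at h2
          rcases he.1 s₁ with h3 | h3 <;> omega
        · exfalso
          have h2 := h1 s₀
          rw [hs₀] at h2
          rcases he.1 s₀ with h3 | h3 <;> omega
        · constructor
          · intro h2
            have h3 := h1 s
            rw [h2] at h3
            rcases he.1 s with h4 | h4 <;> rw [h4] at h3 <;> omega
          · intro h2
            have h3 := h1 s
            rw [h2, he.2] at h3
            rcases he.1 s with h4 | h4 <;> rw [h4] at h3 <;> omega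
        · exfalso
          have h2 := h1 s₀
          rw [hs₀, h0] at h2
          rcases he.1 s₀ with h3 | h3 <;> omega
      intro e e' d d' he he' hd hd' h0 h0'
      funext s
      rcases hc s with h1 | h1
      · rw [(hmain e d he hd h0 s).1 h1, (hmain e' d' he' hd' h0' s).1 h1]
      · rw [(hmain e d he hd h0 s).2 h1, (hmain e' d' he' hd' h0' s).2 h1]
    · -- second case
      push Not at hc
      obtain ⟨s₁, hs₁, hs₁'⟩ := hc
      have n1 : s₁ ≠ s₀ := fun h1 => hs₁ (by rw [h1, hs₀])
      have n2 : s₁ ≠ z • s₀ := fun h1 => hs₁ (by rw [h1, hhz, hs₀])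
      have n3 : z • s₁ ≠ s₀ := fun h1 => n2 (by rw [← h1, hzz'])
      have n4 : z • s₁ ≠ z • s₀ := fun h1 => n1 (MulAction.injective z h1)
      have n5 : h • s₁ ≠ s₀ := fun h1 => n1 (MulAction.injective h (h1.trans hs₀.symm))
      have n6 : h • s₁ ≠ z • s₀ := fun h1 => n2 (MulAction.injective h (by
        change h • s₁ = h • z • s₀
        rw [h1, hhz, hs₀]))
      have n7 : z • h • s₁ ≠ s₁ := fun h1 => hs₁' (by
        rw [← h1, hzz']
        exact congrArg (h • ·) h1)
      have n8 : z • h • s₁ ≠ z • s₁ := fun h1 => hs₁ (MulAction.injective z h1)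
      have hmain : ∀ e d : S → ℤ, IsSgn z e → Split z e d → d s₀ = 1 →
          ∀ s, d s = if s ∈ ({s₁, z • s₁, h • s₁, z • h • s₁} : Finset S) then -1 else 1 := by
        intro e d he hd h0
        obtain ⟨γ, hγ⟩ := hflip e d he hd h0
        obtain ⟨hc1, hc2⟩ := card_neg hcard hd.1 (sum_zero γ hγ)
        have hdh : ∀ s, d (h • s) = d s := by
          rcases split_comp he hd h with h1 | h1
          · exact h1
          · have := h1 s₀
            rw [hs₀] at this
            omega
        have hdz := hd.2.1
        have h1 : d s₁ = -1 := by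
          rcases hd.1 s₁ with h1 | h1
          · exfalso
            have h2 : ({s₀, z • s₀, s₁, z • s₁, h • s₁} : Finset S) ⊆
                univ.filter fun s => d s = 1 := by
              intro s hs
              simp only [mem_insert, mem_singleton] at hs
              rw [mem_filter]
              refine ⟨mem_univ _, ?_⟩
              rcases hs with rfl | rfl | rfl | rfl | rfl
              · exact h0
              · rw [hdz, h0]
              · exact h1
              · rw [hdz, h1]
              · rw [hdh, h1]
            have h3 := card_le_card h2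
            rw [hc2, card_insert_of_notMem, card_insert_of_notMem, card_insert_of_notMem,
              card_insert_of_notMem, card_singleton] at h3
            · omega
            · rw [mem_singleton]
              exact hs₁'.symm
            · simp only [mem_insert, mem_singleton, not_or]
              exact ⟨(hfree s₁).symm, hs₁.symm⟩
            · simp only [mem_insert, mem_singleton, not_or]
              exact ⟨n2.symm, n4.symm, n6.symm⟩
            · simp only [mem_insert, mem_singleton, not_or]
              exact ⟨(hfree s₀).symm, n1.symm, n3.symm, n5.symm⟩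
          · exact h1
        have h2 : ({s₁, z • s₁, h • s₁, z • h • s₁} : Finset S) =
            univ.filter fun s => d s = -1 := by
          refine eq_of_subset_of_card_le ?_ ?_
          · intro s hs
            simp only [mem_insert, mem_singleton] at hs
            rw [mem_filter]
            refine ⟨mem_univ _, ?_⟩
            rcases hs with rfl | rfl | rfl | rfl
            · exact h1
            · rw [hdz, h1]
            · rw [hdh, h1]
            · rw [hdz, hdh, h1]
          · rw [hc1, card_insert_of_notMem, card_insert_of_notMem, card_insert_of_notMem,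
              card_singleton]
            · rw [mem_singleton]
              exact (hfree (h • s₁)).symm
            · simp only [mem_insert, mem_singleton, not_or]
              exact ⟨hs₁'.symm, n8.symm⟩
            · simp only [mem_insert, mem_singleton, not_or]
              exact ⟨(hfree s₁).symm, hs₁.symm, n7.symm⟩
        intro s
        rw [h2]
        simp only [mem_filter, mem_univ, true_and]
        rcases hd.1 s with h3 | h3
        · rw [if_neg (by omega), h3]
        · rw [if_pos h3, h3]
      intro e e' d d' he he' hd hd' h0 h0'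
      funext s
      rw [hmain e d he hd h0 s, hmain e' d' he' hd' h0' s]
  -- the contradiction
  obtain ⟨e, he⟩ := exists_sgn hzz hfree
  obtain ⟨d, hd, h0⟩ := H' e he
  obtain ⟨y, hy⟩ : ∃ y : S → ℤ, y = fun s => if s = s₀ ∨ s = z • s₀ then -1 else 1 := ⟨_, rfl⟩
  have hyz : ∀ s, y (z • s) = y s := by
    intro s
    have h1 : (z • s = s₀ ∨ z • s = z • s₀) ↔ (s = s₀ ∨ s = z • s₀) := by
      constructor
      · rintro (h1 | h1)
        · right
          rw [← h1, hzz']
        · left
          exact MulAction.injective z h1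
      · rintro (h1 | h1)
        · right
          rw [h1]
        · left
          rw [h1, hzz']
    rw [hy]
    simp only [h1]
  have hy1 : ∀ s, y s = 1 ∨ y s = -1 := by
    intro s
    rw [hy]
    dsimp only
    split_ifs
    · exact Or.inr rfl
    · exact Or.inl rfl
  have he' : IsSgn z (fun s => e s * y s) := by
    refine ⟨fun s => ?_, fun s => ?_⟩
    · dsimp only
      rcases he.1 s with h1 | h1 <;> rcases hy1 s with h2 | h2 <;> rw [h1, h2] <;> norm_num
    · dsimp only
      rw [he.2, hyz]
      ring
  obtain ⟨d', hd', h0'⟩ := H' _ he'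
  have hdd : d = d' := key e _ d d' he he' hd hd' h0 h0'
  subst hdd
  obtain ⟨γ, hγ⟩ := hflip e d he hd h0
  have h1 := q4_mul hd.1 (split_q4 he hd γ) (split_q4 he' hd' γ)
  have h2 : (fun s => (e (γ • s) * e s) * ((e (γ • s) * y (γ • s)) * (e s * y s))) =
      fun s => y (γ • s) * y s := by
    funext s
    linear_combination (e s * e s * y (γ • s) * y s) * sgn_sq he (γ • s) +
      y (γ • s) * y s * sgn_sq he s
  rw [h2] at h1
  have hyd : ∀ s, d s = -1 → y s = 1 := by
    intro s hs
    rw [hy]
    dsimp only
    rw [if_neg]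
    rintro (h3 | h3)
    · rw [h3] at hs
      omega
    · rw [h3, hd.2.1] at hs
      omega
  have hy0 : y s₀ = -1 := by
    rw [hy]
    dsimp only
    rw [if_pos (Or.inl rfl)]
  have v1 : y (γ • s₀) * y s₀ = -1 := by
    rw [hyd (γ • s₀) (by rw [hγ, h0]), hy0]
    norm_num
  have hg : d (γ⁻¹ • s₀) = -1 := by
    have := hγ (γ⁻¹ • s₀)
    rw [smul_inv_smul, h0] at this
    omega
  have v2 : y (γ • γ⁻¹ • s₀) * y (γ⁻¹ • s₀) = -1 := by
    rw [smul_inv_smul, hyd _ hg, hy0]
    norm_num
  obtain ⟨s₂, hs₂⟩ : ∃ s₂ : S, s₂ ∉ ({s₀, z • s₀, γ⁻¹ • s₀, z • γ⁻¹ • s₀} : Finset S) := by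
    by_contra hcon
    push Not at hcon
    have h3 : (univ : Finset S).card ≤ 4 := by
      have h4 : (univ : Finset S) ⊆ ({s₀, z • s₀, γ⁻¹ • s₀, z • γ⁻¹ • s₀} : Finset S) :=
        fun s _ => hcon s
      exact (card_le_card h4).trans card_le_four
    rw [Nat.card_eq_fintype_card] at hcard
    rw [card_univ, hcard] at h3
    omega
  simp only [mem_insert, mem_singleton, not_or] at hs₂
  have v3 : y (γ • s₂) * y s₂ = 1 := by
    have h3 : y s₂ = 1 := by
      rw [hy]
      dsimp only
      rw [if_neg (by
        rintro (h3 | h3)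
        · exact hs₂.1 h3
        · exact hs₂.2.1 h3)]
    have h4 : y (γ • s₂) = 1 := by
      rw [hy]
      dsimp only
      rw [if_neg]
      rintro (h5 | h5)
      · exact hs₂.2.2.1 (by rw [← h5, inv_smul_smul])
      · apply hs₂.2.2.2
        rw [← hhz, ← h5, inv_smul_smul]
    rw [h3, h4]
    norm_num
  rcases h1 with h1 | h1 | h1 | h1
  · have a1 : y (γ • s₀) * y s₀ = 1 := h1 s₀
    rw [v1] at a1
    omega
  · have a1 : y (γ • s₂) * y s₂ = -1 := h1 s₂
    rw [v3] at a1
    omega
  · have a1 : y (γ • s₀) * y s₀ = d s₀ := h1 s₀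
    rw [v1] at a1
    omega
  · have a2 : y (γ • γ⁻¹ • s₀) * y (γ⁻¹ • s₀) = - d (γ⁻¹ • s₀) := h1 (γ⁻¹ • s₀)
    rw [v2] at a2
    omega

end Pool.Agent.Lib.MP_640417_ag.Cls
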