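import Pool.Agent.Lib.MP_640417_ag.Nondeg
import Pool.Agent.Lib.MP_640417_ag.OddCMLower
import Mathlib.GroupTheory.SpecificGroups.Dihedral
import Mathlib.GroupTheory.SpecificGroups.KleinFour

/-!
# Which CM fields have a primitive CM type without exotic classes

`exists_good` (in `NondegAll.lean`) gives `Good S z` except when `S` has four or eight elements. Here
these cases are treated: `Good S z` fails exactly when `G` acts freely and is dihedral of order `4`
(Klein four group) or `8`. `oddRel`, `IsSgn`, `Good` are defined in `Nondeg.lean`.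
-/

namespace Pool.Agent.Lib.MP_640417_ag.Cls

open Module Finset MulAction NumberField

/-- A sign function which is stable up to sign. -/
def StableSgn {S G : Type} [Group G] [MulAction G S] (z : G) (w : S → ℤ) : Prop :=
  IsSgn z w ∧ ∀ γ : G, (∀ s, w (γ • s) = w s) ∨ (∀ s, w (γ • s) = - w s)

/-- The translates of `e` are `e`, `-e`, `d e`, `- d e`, and `d e` is one of them; `d` is even and not
constant. -/
def Split {S G : Type} [Group G] [MulAction G S] (z : G) (e d : S → ℤ) : Prop :=
  (∀ s, d s = 1 ∨ d s = -1) ∧ (∀ s, d (z • s) = d s) ∧ (∃ s, d s = 1) ∧ (∃ s, d s = -1) ∧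
  (∃ γ : G, ∀ s, e (γ • s) = d s * e s) ∧
  ∀ γ : G, (∀ s, e (γ • s) = e s) ∨ (∀ s, e (γ • s) = - e s) ∨
    (∀ s, e (γ • s) = d s * e s) ∨ (∀ s, e (γ • s) = - (d s * e s))

/-- A stable sign function is enough (an imaginary quadratic subfield, degree not four).

Proof. Let `u s = -1` if `s = s₀` or `s = z • s₀` and `u s = 1` otherwise, `e = u w`, a sign function. Let `v`
be in `oddRel z e`, `y = v w` (even). `w (γ • s) = χ w s` with a sign `χ` independent of `s`, so
`0 = ∑ v s * e (γ • s) = χ ∑ y s * u (γ • s) = χ (∑ y s - 2 (y (γ⁻¹ • s₀) + y (γ⁻¹ • z • s₀)))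
= χ (∑ y s - 4 y (γ⁻¹ • s₀))`. So `4 y s = ∑ y` for all `s` (transitivity), `y` is a constant `c` and
`4 c = |S| c`, so `c = 0` and `v = 0` (see the proof of `good_of_odd_prime` for similar code). -/
def StLine : Prop := ∀ (S G : Type) [Fintype S] [Group G] [MulAction G S] [IsPretransitive G S]
  (z : G) (_ : ∀ γ : G, γ * z = z * γ) (_ : z * z = 1) (_ : ∀ s : S, z • s ≠ s) (_ : S)
  (w : S → ℤ), StableSgn z w → Nat.card S ≠ 4 → Good S z

/-- Sets with eight elements: the translates of a sign function with a relation.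

Proof. Work in the space `W` of odd functions `S → ℚ`, `finrank W = 4`. `L` = span of the translates
`e ∘ γ`, `R` = span of `oddRel z e`. By positive definiteness of the dot product `L ⊓ R = ⊥` and
`L ⊔ R ≤ W`, so `finrank L + finrank R ≤ 4`. `finrank R ≥ 2`: take `v ≠ 0` in `oddRel z e`. If
`v ∘ γ = ± v` for all `γ` then `|v|` is constant by transitivity and `sign v` is a stable sign function,
which is excluded. So some `v' = v ∘ γ` (in `oddRel z e` by `oddRel_comp`) is not `± v`; `v` and `v'` are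
linearly independent because `∑ v² = ∑ v'²` (if `a v = b v'` then `a² = b²`). So `finrank L ≤ 2`. `e` is not
stable, so some translate `e₁ = e ∘ γ₁` is not `± e`; put `d = e₁ e`. `e, e₁` are linearly independent
(sign functions, not `±` equal), so they span `L`: for each `γ` `e ∘ γ = a e + b e₁`, so
`e (γ • s) e s = a + b d s` with values `a + b`, `a - b` in `{1, -1}` (both values occur as `d` is not
constant). -/
def StTwo : Prop := ∀ (S G : Type) [Fintype S] [Group G] [Finite G] [MulAction G S]
  [IsPretransitive G S] (z : G) (_ : ∀ γ : G, γ * z = z * γ) (_ : z * z = 1)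
  (_ : ∀ s : S, z • s ≠ s) (_ : Nat.card S = 8) (_ : ¬ ∃ w : S → ℤ, StableSgn z w)
  (e : S → ℤ) (_ : IsSgn z e) (_ : ∃ v ∈ oddRel z e, v ≠ 0), ∃ d : S → ℤ, Split z e d

/-- The action is free.

Proof. For each sign function `e` let `d_e` be as in `Split`. (a) `d_e ∘ γ = ± d_e` for all `γ`: with
`e ∘ γ₁ = d_e e`, `d_e (γ • s) = e (γ₁ • γ • s) e (γ • s)` is the product of two of the functions
`± e, ± d_e e`, so it is one of `± 1, ± d_e`, and it is not constant. Replace `d_e` by `± d_e` so that
`d_e s₀ = 1`. By transitivity some `γ` has `d_e ∘ γ = - d_e`, so `d_e` has four values `1` and four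
values `-1`. (b) Suppose `h ≠ 1` and `h • s₀ = s₀`. Then `e ∘ h = e` or `e ∘ h = d_e e` (compare at `s₀`),
and `d_e ∘ h = d_e`. Claim: `d_e = d` does not depend on `e`. If `h • s ∈ {s, z • s}` for all `s`: some
`s₁` has `h • s₁ = z • s₁` (faithful), so `e ∘ h ≠ e`, `d_e s = e (h • s) e s` is `1` if `h • s = s` and
`-1` if `h • s = z • s`. Otherwise some `s₁` has `h • s₁ ∉ {s₁, z • s₁}`; `{d_e = 1}` has four elements,
is stable under `z` and `h` and contains `s₀, z • s₀`, so it does not contain `s₁` (otherwise it would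
contain the six elements `s₀, z s₀, s₁, z s₁, h s₁, z h s₁`), so
`{d_e = -1} = {s₁, z s₁, h s₁, z h s₁}`. (c) Take `γ` with `d ∘ γ = - d`, any sign function `e` and
`e' = e y`, `y = -1` on `{s₀, z • s₀}`, `y = 1` elsewhere. `e (γ • s) e s` and `e' (γ • s) e' s` are among
`± 1, ± d`, so is `y (γ • s) y s`, which is `-1` exactly on the four elements `s₀, z s₀, γ⁻¹ s₀, z γ⁻¹ s₀`.
It is not constant, and not `± d` since `d (γ⁻¹ • s₀) = - d s₀`. Contradiction. -/
def StReg : Prop := ∀ (S G : Type) [Fintype S] [Group G] [MulAction G S]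
  [IsPretransitive G S] [FaithfulSMul G S] (z : G) (_ : ∀ γ : G, γ * z = z * γ) (_ : z * z = 1)
  (_ : ∀ s : S, z • s ≠ s) (_ : Nat.card S = 8)
  (_ : ∀ e : S → ℤ, IsSgn z e → ∃ d : S → ℤ, Split z e d) (h : G) (s₀ : S), h • s₀ = s₀ → h = 1

/-- The group is dihedral of order eight.

Proof. `|G| = 8` (free and transitive). For a sign function `e` let `G_e = {γ | e ∘ γ = e}`, a subgroup.
The translates of `e` are `± e, ± d e` (four different functions), so `|G_e| = 2` (orbit-stabilizer, or:
`γ ↦ e ∘ γ` has fibres of the size `|G_e|` and four values); `z ∉ G_e`. Let `t_e` be its nontrivial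
element, `t_e ^ 2 = 1`, `t_e ≠ 1, z`. For `t` with `t ^ 2 = 1`, `t ≠ 1, z`, at most `4` sign functions have
`e ∘ t = e`: `e` is determined by its values at `s₀` and at a point `s₂` outside `{s₀, t s₀, z s₀, z t s₀}`
(this set and its translate by... the eight elements of `S` are the orbits of `s₀` and `s₂` under
`{1, t, z, t z}`). There are `16` sign functions (`ncard_isSgn_le` in `Full` or `Far` or count directly:
restriction to representatives), so there are at least four such `t`. Together with `1` and `z` at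
least six elements `γ` have `γ ^ 2 = 1`. Not all elements have: otherwise `G` is commutative; take any
`e`, `d`, `γ₁` with `e ∘ γ₁ = d e`, `t = t_e`; `d = e (e ∘ γ₁)` satisfies `d ∘ t = d`, `d ∘ z = d` and
`d ∘ γ₁ = (e ∘ γ₁) (e ∘ γ₁ ^ 2) = d`; `γ₁ ∉ {1, t, z, t z}` (as `d` is not constant), so `t, z, γ₁` generate
`G` and `d` is constant, a contradiction. Let `r ^ 2 ≠ 1`; then `r⁻¹` too and `r⁻¹ ≠ r`; these are the only
ones (at most two elements have nontrivial square). So `G` is not cyclic, `r` has order `4` (if it had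
order `8`, `r, r⁻¹, r ^ 3` have nontrivial squares). Let `t ∉ {1, r, r², r³}`. Then `t ^ 2 = 1`, and
`t r ∉ {1, r, r², r³}`, so `(t r) ^ 2 = 1`, `t r t = r⁻¹`. So `r i ↦ r ^ i`, `sr i ↦ t r ^ i` is an
isomorphism from `DihedralGroup 4`. -/
def StD4 : Prop := ∀ (S G : Type) [Fintype S] [Group G] [Finite G] [MulAction G S]
  [IsPretransitive G S] (z : G) (_ : ∀ γ : G, γ * z = z * γ) (_ : z * z = 1)
  (_ : ∀ s : S, z • s ≠ s) (_ : Nat.card S = 8) (_ : ∀ (γ : G) (s : S), γ • s = s → γ = 1)
  (_ : ∀ e : S → ℤ, IsSgn z e → ∃ d : S → ℤ, Split z e d), Nonempty (G ≃* DihedralGroup 4)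

/-- Sets with four elements.

Proof. `S = {s₀, z s₀, s₁, z s₁}`. Let `e` be a sign function and `v ≠ 0` in `oddRel z e`:
`v s₀ e (γ s₀) = - v s₁ e (γ s₁)` for all `γ`; for `γ = 1` this gives `|v s₀| = |v s₁| ≠ 0`, and dividing,
`e (γ s₀) e s₀ = e (γ s₁) e s₁`: so `e ∘ γ = ± e` for all `γ` and all sign functions `e`. Let `e` be any one and
`e' = - e` on `{s₀, z s₀}`, `e' = e` on `{s₁, z s₁}`; `(e, e')` separates the four points. So `γ` is
determined by the two signs (`γ s = s` for all `s` if both are `1`, and then `γ = 1` by faithfulness); in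
particular `γ * γ = 1`, `|G| ≤ 4`, and `|G| = 4` by transitivity; a `γ` with `γ s = s` for one `s` has both
signs `1`. So `G` is a Klein four group (`IsKleinFour`, `IsKleinFour.nonempty_mulEquiv`, the instance for
`DihedralGroup 2`). -/
def StFour : Prop := ∀ (S G : Type) [Fintype S] [Group G] [Finite G] [MulAction G S]
  [IsPretransitive G S] [FaithfulSMul G S] (z : G) (_ : ∀ γ : G, γ * z = z * γ) (_ : z * z = 1)
  (_ : ∀ s : S, z • s ≠ s) (_ : Nat.card S = 4) (_ : ¬ Good S z),
  (∀ (γ : G) (s : S), γ • s = s → γ = 1) ∧ Nonempty (G ≃* DihedralGroup 2)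

/-- In the dihedral case of order eight every sign function has a relation.

Proof. Let `e` be a sign function. (a) There is `t` in `G` with `t ≠ 1`, `t ≠ z`, `t * t = 1` and
`e (t • s) = e s` for all `s`. Let `r, q` be the images of `r 1`, `sr 0`; `z = r ^ 2` (the only central
element of order two). `S` is in bijection with `G` by `γ ↦ γ • s₀`; write `e γ` for `e (γ • s₀)`. A
function with `e (z γ) = - e γ` satisfies `e (t γ) = e γ` for all `γ` iff it does for `γ = 1, r` (`t` a
reflection: `1, r, t, t r` and their multiples by `z` are all elements). If `e 1 e q = e r e (q r)`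
take `t = q` or `t = q z` (according to the sign). Otherwise `e 1 e (q r) = - e r e q`, and `t = q r` or
`t = q r z` works: `t r = q r ^ 2 = z q`. (b) For `s` in `S` let `F_s γ = e (γ • s) e s`. Then
`F_s (t γ) = F_s γ`, `F_s (z γ) = - F_s γ`, `F_s 1 = 1`, so `F_s` is determined by `F_s γ₂` where
`γ₂ ∉ {1, t, z, t z}` (then `γ₂, t γ₂, z γ₂, t z γ₂` are the other four elements). There are four pairs
`{s, z s}`, so there are `s, s'` with `s' ∉ {s, z s}` and `F_s = F_s'`. (c) `v = e s (δ_s - δ_{z s}) -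
e s' (δ_{s'} - δ_{z s'})` is a relation. -/
def StConvD4 : Prop := ∀ (S G : Type) [Fintype S] [Group G] [Finite G] [MulAction G S]
  [IsPretransitive G S] (z : G) (_ : ∀ γ : G, γ * z = z * γ) (_ : z * z = 1)
  (_ : ∀ s : S, z • s ≠ s) (_ : S) (_ : ∀ (γ : G) (s : S), γ • s = s → γ = 1)
  (_ : Nonempty (G ≃* DihedralGroup 4)) (e : S → ℤ), IsSgn z e → ∃ v ∈ oddRel z e, v ≠ 0

/-- In the Klein four case no sign function is primitive.

Proof. `G = {1, z, γ₁, z γ₁}`, all squares are `1`, `S = {s₀, z s₀, s₁, z s₁}` with `s₁ = γ₁ s₀`. If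
`e s₁ = e s₀` take `φ = s₀`, `ψ = s₁`, otherwise `φ = s₀`, `ψ = z s₁`. -/
def StConvV4 : Prop := ∀ (S G : Type) [Fintype S] [Group G] [Finite G] [MulAction G S]
  [IsPretransitive G S] (z : G) (_ : ∀ γ : G, γ * z = z * γ) (_ : z * z = 1)
  (_ : ∀ s : S, z • s ≠ s) (_ : S) (_ : ∀ (γ : G) (s : S), γ • s = s → γ = 1)
  (_ : Nonempty (G ≃* DihedralGroup 2)) (e : S → ℤ), IsSgn z e →
  ∃ φ ψ : S, φ ≠ ψ ∧ ∀ γ : G, e (γ • φ) = e (γ • ψ)

/-- The Galois group of a Galois CM field.

Proof. Use `pCorrG` (`Sharp/CorrG.lean`, statement `StCorrG` in `Sharp/SpecF.lean`) with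
`H = stabilizer φ₀`: `fixAt φ₀ H = ⊤`, so `IsDih n H` iff `⊤` is Galois over `ℚ` with dihedral group iff `E` is
(`IntermediateField.topEquiv`). If `E` is, `H` is normal, so all stabilizers are equal
(transitivity), `H` acts trivially, `H = ⊥` (elements of `galGroup E` are permutations), and
`G ≃ G ⧸ ⊥`. Conversely if the action is free then `H = ⊥` is normal. -/
def StField : Prop := ∀ (E : Type) [Field E] [NumberField E] [IsCMField E] (n : ℕ),
  (IsGalois ℚ E ∧ Nonempty ((E ≃ₐ[ℚ] E) ≃* DihedralGroup n)) ↔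
    (∀ (γ : galGroup E) (φ : Emb E), γ • φ = φ → γ = 1) ∧
      Nonempty (galGroup E ≃* DihedralGroup n)

end Pool.Agent.Lib.MP_640417_ag.Cls
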