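import Pool.Agent.Lib.MP_640417_ag.Cls.Spec

/-!
# Sets with eight elements: the translates of a sign function with a relation
-/

set_option autoImplicit false

namespace Pool.Agent.Lib.MP_640417_ag.Cls

open Module Finset MulAction

/-- five odd functions on a set with eight elements are linearly dependent -/
private lemma two_dependent {S G : Type} [Fintype S] [Group G] [MulAction G S] (z : G)
    (hz2 : z * z = 1) (hne : ∀ s : S, z • s ≠ s) (hcard : Nat.card S = 8)
    (F : Fin 5 → S → ℚ) (hF : ∀ i s, F i (z • s) = - F i s) :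
    ∃ c : Fin 5 → ℚ, c ≠ 0 ∧ ∀ s, ∑ i, c i * F i s = 0 := by
  classical
  have hzz : ∀ s : S, z • z • s = s := fun s => by rw [← mul_smul, hz2, one_smul]
  obtain ⟨X, hX⟩ := exists_transversal (fun s : S => z • s) hzz hne
  have hXc : Xᶜ.card = X.card := by
    have h1 : Xᶜ = X.image (fun s => z • s) := by
      ext s
      rw [Finset.mem_compl, Finset.mem_image]
      constructor
      · intro hs
        refine ⟨z • s, ?_, hzz s⟩
        by_contra h
        exact hs ((hX s).2 h)
      · rintro ⟨t, ht, rfl⟩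
        exact (hX t).1 ht
    rw [h1]
    apply Finset.card_image_of_injective
    exact MulAction.injective z
  have hX4 : X.card = 4 := by
    have h1 := Finset.card_add_card_compl X
    rw [hXc, ← Nat.card_eq_fintype_card, hcard] at h1
    omega
  let T : (Fin 5 → ℚ) →ₗ[ℚ] (X → ℚ) :=
    { toFun := fun c x => ∑ i, c i * F i x.1
      map_add' := by
        intro a b
        funext x
        simp [add_mul, Finset.sum_add_distrib]
      map_smul' := by
        intro a b
        funext x
        simp [mul_assoc, Finset.mul_sum] }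
  have hker : LinearMap.ker T ≠ ⊥ := by
    apply LinearMap.ker_ne_bot_of_finrank_lt
    rw [Module.finrank_fintype_fun_eq_card, Module.finrank_fintype_fun_eq_card,
      Fintype.card_coe, hX4, Fintype.card_fin]
    norm_num
  obtain ⟨c, hc, hc0⟩ := Submodule.exists_mem_ne_zero_of_ne_bot hker
  refine ⟨c, hc0, fun s => ?_⟩
  have hT : ∀ x ∈ X, ∑ i, c i * F i x = 0 := fun x hx =>
    congrFun (LinearMap.mem_ker.1 hc) ⟨x, hx⟩
  by_cases hs : s ∈ X
  · exact hT s hs
  · have h1 : z • s ∈ X := by
      by_contra h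
      exact hs ((hX s).2 h)
    have h2 := hT _ h1
    simp only [hF, mul_neg, Finset.sum_neg_distrib, neg_eq_zero] at h2
    exact h2

/-- a relation which is not stable up to sign -/
private lemma two_relations {S G : Type} [Fintype S] [Group G] [MulAction G S]
    [IsPretransitive G S] (z : G) (hz : ∀ γ : G, γ * z = z * γ)
    (hst : ¬ ∃ w : S → ℤ, StableSgn z w) (e v : S → ℤ) (hv : v ∈ oddRel z e) (hv0 : v ≠ 0) :
    ∃ v' ∈ oddRel z e, v' ≠ v ∧ v' ≠ -v ∧ ∑ s, v' s ^ 2 = ∑ s, v s ^ 2 := by
  by_contra hcon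
  push Not at hcon
  have hall : ∀ γ : G, (∀ s, v (γ • s) = v s) ∨ ∀ s, v (γ • s) = - v s := by
    intro γ
    have h1 : ∑ s, v (γ • s) ^ 2 = ∑ s, v s ^ 2 := by
      apply Fintype.sum_bijective (fun s => γ • s) (MulAction.bijective γ)
      intro s
      rfl
    by_cases h2 : (fun s => v (γ • s)) = v
    · exact Or.inl fun s => congrFun h2 s
    · by_cases h3 : (fun s => v (γ • s)) = -v
      · exact Or.inr fun s => congrFun h3 s
      · exact absurd h1 (hcon _ (oddRel_comp z hz e γ v hv) h2 h3)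
  obtain ⟨s₁, hs₁⟩ : ∃ s₁, v s₁ ≠ 0 := by
    by_contra h
    push Not at h
    exact hv0 (funext h)
  have hvs : ∀ s, v s ≠ 0 := by
    intro s
    obtain ⟨γ, rfl⟩ := MulAction.exists_smul_eq G s₁ s
    rcases hall γ with h | h
    · rw [h]
      exact hs₁
    · rw [h]
      exact neg_ne_zero.2 hs₁
  apply hst
  refine ⟨fun s => Int.sign (v s), ⟨?_, ?_⟩, ?_⟩
  · intro s
    rcases lt_or_gt_of_ne (hvs s) with h | h
    · exact Or.inr (Int.sign_eq_neg_one_of_neg h)
    · exact Or.inl (Int.sign_eq_one_of_pos h)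
  · intro s
    show Int.sign (v (z • s)) = - Int.sign (v s)
    rw [hv.1, Int.sign_neg]
  · intro γ
    rcases hall γ with h | h
    · left
      intro s
      show Int.sign (v (γ • s)) = Int.sign (v s)
      rw [h]
    · right
      intro s
      show Int.sign (v (γ • s)) = - Int.sign (v s)
      rw [h, Int.sign_neg]

/-- two vectors with the same sum of squares which are not equal up to sign -/
private lemma two_indep {S : Type} [Fintype S] (v v' : S → ℤ) (hv0 : v ≠ 0) (h1 : v' ≠ v)
    (h2 : v' ≠ -v) (hsq : ∑ s, v' s ^ 2 = ∑ s, v s ^ 2) (a a' : ℚ)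
    (h : ∀ s, a * v s + a' * v' s = 0) : a = 0 ∧ a' = 0 := by
  obtain ⟨s₁, hs₁⟩ : ∃ s₁, v s₁ ≠ 0 := by
    by_contra h
    push Not at h
    exact hv0 (funext h)
  have hpos : (0 : ℚ) < ∑ s, (v s : ℚ) ^ 2 := by
    apply Finset.sum_pos'
    · intro s _
      positivity
    · refine ⟨s₁, Finset.mem_univ _, ?_⟩
      have : (v s₁ : ℚ) ≠ 0 := by exact_mod_cast hs₁
      positivity
  have hsq' : ∑ s, (v' s : ℚ) ^ 2 = ∑ s, (v s : ℚ) ^ 2 := by exact_mod_cast hsq
  have h3 : a ^ 2 * ∑ s, (v s : ℚ) ^ 2 = a' ^ 2 * ∑ s, (v s : ℚ) ^ 2 := by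
    conv_rhs => rw [← hsq']
    rw [Finset.mul_sum, Finset.mul_sum]
    apply Finset.sum_congr rfl
    intro s _
    have h4 : a * v s = -(a' * v' s) := by linear_combination h s
    calc a ^ 2 * (v s : ℚ) ^ 2 = (a * v s) ^ 2 := by ring
      _ = a' ^ 2 * (v' s : ℚ) ^ 2 := by
        rw [h4]
        ring
  have h5 : a ^ 2 = a' ^ 2 := mul_right_cancel₀ hpos.ne' h3
  have h6 : a' = 0 := by
    by_contra hne
    rcases sq_eq_sq_iff_eq_or_eq_neg.1 h5 with h' | h'
    · apply h2
      funext s
      have h7 : a' * ((v' s + v s : ℤ) : ℚ) = 0 := by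
        have h8 := h s
        rw [h'] at h8
        push_cast
        linear_combination h8
      have h8 : v' s + v s = 0 := by
        exact_mod_cast (mul_eq_zero.1 h7).resolve_left hne
      show v' s = - v s
      linarith
    · apply h1
      funext s
      have h7 : a' * ((v' s - v s : ℤ) : ℚ) = 0 := by
        have h8 := h s
        rw [h'] at h8
        push_cast
        linear_combination h8
      have h8 : v' s - v s = 0 := by
        exact_mod_cast (mul_eq_zero.1 h7).resolve_left hne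
      linarith
  rw [h6] at h5
  refine ⟨?_, h6⟩
  simpa using h5

theorem pTwo : StTwo := by
  intro S G _ _ _ _ _ z hz hz2 hne hcard hst e he ⟨v, hv, hv0⟩
  obtain ⟨v', hv', hv1, hv2, hsq⟩ := two_relations z hz hst e v hv hv0
  -- a translate of `e`
  have hex : ∃ γ₁ : G, (¬ ∀ s, e (γ₁ • s) = e s) ∧ ¬ ∀ s, e (γ₁ • s) = - e s := by
    by_contra hcon
    push Not at hcon
    apply hst
    refine ⟨e, he, fun γ => ?_⟩
    by_cases h : ∀ s, e (γ • s) = e s
    · exact Or.inl h
    · push Not at h
      exact Or.inr (hcon γ h)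
  obtain ⟨γ₁, hγ1, hγ2⟩ := hex
  have hee : ∀ s, e s * e s = 1 := by
    intro s
    rcases he.1 s with h | h <;> rw [h] <;> norm_num
  have hd1 : ∀ s, e (γ₁ • s) * e s = 1 ∨ e (γ₁ • s) * e s = -1 := by
    intro s
    rcases he.1 s with h | h <;> rcases he.1 (γ₁ • s) with h' | h' <;> rw [h, h'] <;> norm_num
  have hzγ : ∀ (γ : G) (s : S), e (γ • z • s) = - e (γ • s) := by
    intro γ s
    rw [← mul_smul, hz, mul_smul, he.2]
  obtain ⟨sp, hsp⟩ : ∃ s, e (γ₁ • s) * e s = 1 := by
    by_contra h
    push Not at h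
    apply hγ2
    intro s
    have h1 := (hd1 s).resolve_left (h s)
    calc e (γ₁ • s) = e (γ₁ • s) * (e s * e s) := by rw [hee, mul_one]
      _ = (e (γ₁ • s) * e s) * e s := by ring
      _ = - e s := by rw [h1]; ring
  obtain ⟨sm, hsm⟩ : ∃ s, e (γ₁ • s) * e s = -1 := by
    by_contra h
    push Not at h
    apply hγ1
    intro s
    have h1 := (hd1 s).resolve_right (h s)
    calc e (γ₁ • s) = e (γ₁ • s) * (e s * e s) := by rw [hee, mul_one]
      _ = (e (γ₁ • s) * e s) * e s := by ring
      _ = e s := by rw [h1]; ring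
  refine ⟨fun s => e (γ₁ • s) * e s, hd1, ?_, ⟨sp, hsp⟩, ⟨sm, hsm⟩, ⟨γ₁, ?_⟩, ?_⟩
  · intro s
    show e (γ₁ • z • s) * e (z • s) = e (γ₁ • s) * e s
    rw [hzγ, he.2]
    ring
  · intro s
    show e (γ₁ • s) = e (γ₁ • s) * e s * e s
    rw [mul_assoc, hee, mul_one]
  · intro γ
    obtain ⟨c, hc0, hc⟩ := two_dependent z hz2 hne hcard
      ![fun s => (v s : ℚ), fun s => (v' s : ℚ), fun s => (e s : ℚ), fun s => (e (γ₁ • s) : ℚ),
        fun s => (e (γ • s) : ℚ)] (by
        intro i s
        fin_cases i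
        · show (v (z • s) : ℚ) = - (v s : ℚ)
          rw [hv.1]
          push_cast
          rfl
        · show (v' (z • s) : ℚ) = - (v' s : ℚ)
          rw [hv'.1]
          push_cast
          rfl
        · show (e (z • s) : ℚ) = - (e s : ℚ)
          rw [he.2]
          push_cast
          rfl
        · show (e (γ₁ • z • s) : ℚ) = - (e (γ₁ • s) : ℚ)
          rw [hzγ]
          push_cast
          rfl
        · show (e (γ • z • s) : ℚ) = - (e (γ • s) : ℚ)
          rw [hzγ]
          push_cast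
          rfl)
    have hrel : ∀ s, c 0 * (v s : ℚ) + c 1 * (v' s : ℚ) + c 2 * (e s : ℚ) +
        c 3 * (e (γ₁ • s) : ℚ) + c 4 * (e (γ • s) : ℚ) = 0 := by
      intro s
      have h := hc s
      rw [Fin.sum_univ_five] at h
      exact h
    -- the relations are orthogonal to the translates
    have horth : ∀ (x : S → ℤ) (_ : x ∈ oddRel z e) (τ : G),
        ∑ s, (x s : ℚ) * (e (τ • s) : ℚ) = 0 := by
      intro x hx τ
      exact_mod_cast hx.2 τ
    have horth1 : ∀ (x : S → ℤ) (_ : x ∈ oddRel z e), ∑ s, (x s : ℚ) * (e s : ℚ) = 0 := by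
      intro x hx
      have h := horth x hx 1
      simpa only [one_smul] using h
    have hu : ∀ s, c 0 * (v s : ℚ) + c 1 * (v' s : ℚ) = 0 := by
      have h1 : ∑ s, (c 0 * (v s : ℚ) + c 1 * (v' s : ℚ)) ^ 2 = 0 := by
        have h2 : ∑ s, (c 0 * (v s : ℚ) + c 1 * (v' s : ℚ)) ^ 2 =
            ∑ s, -(c 0 * (c 2 * ((v s : ℚ) * (e s : ℚ)) + c 3 * ((v s : ℚ) * (e (γ₁ • s) : ℚ)) +
              c 4 * ((v s : ℚ) * (e (γ • s) : ℚ))) +
              c 1 * (c 2 * ((v' s : ℚ) * (e s : ℚ)) + c 3 * ((v' s : ℚ) * (e (γ₁ • s) : ℚ)) +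
              c 4 * ((v' s : ℚ) * (e (γ • s) : ℚ)))) := by
          apply Finset.sum_congr rfl
          intro s _
          linear_combination (c 0 * (v s : ℚ) + c 1 * (v' s : ℚ)) * hrel s
        rw [h2, Finset.sum_neg_distrib, Finset.sum_add_distrib, ← Finset.mul_sum,
          ← Finset.mul_sum, Finset.sum_add_distrib, Finset.sum_add_distrib,
          Finset.sum_add_distrib, Finset.sum_add_distrib, ← Finset.mul_sum, ← Finset.mul_sum,
          ← Finset.mul_sum, ← Finset.mul_sum, ← Finset.mul_sum, ← Finset.mul_sum,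
          horth1 v hv, horth v hv, horth v hv, horth1 v' hv', horth v' hv', horth v' hv']
        ring
      intro s
      have h3 := (Finset.sum_eq_zero_iff_of_nonneg (fun s _ => by positivity)).1 h1 s
        (Finset.mem_univ s)
      exact pow_eq_zero_iff (two_ne_zero) |>.1 h3
    obtain ⟨hc00, hc01⟩ := two_indep v v' hv0 hv1 hv2 hsq _ _ hu
    have hg : ∀ s, c 2 + c 3 * ((e (γ₁ • s) * e s : ℤ) : ℚ) +
        c 4 * ((e (γ • s) * e s : ℤ) : ℚ) = 0 := by
      intro s
      have h1 := hrel s
      rw [hc00, hc01] at h1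
      have h2 : (e s : ℚ) * (e s : ℚ) = 1 := by exact_mod_cast hee s
      push_cast
      linear_combination (e s : ℚ) * h1 - c 2 * h2
    have hc4 : c 4 ≠ 0 := by
      intro h4
      have h1 := hg sp
      have h2 := hg sm
      rw [hsp, h4] at h1
      rw [hsm, h4] at h2
      push_cast at h1 h2
      apply hc0
      funext i
      fin_cases i
      · exact hc00
      · exact hc01
      · show c 2 = 0
        linarith
      · show c 3 = 0
        linarith
      · exact h4
    have hdet : ∀ s s', e (γ₁ • s) * e s = e (γ₁ • s') * e s' →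
        e (γ • s) * e s = e (γ • s') * e s' := by
      intro s s' h
      have h1 := hg s
      have h2 := hg s'
      rw [h] at h1
      have h3 : c 4 * ((e (γ • s) * e s : ℤ) : ℚ) = c 4 * ((e (γ • s') * e s' : ℤ) : ℚ) := by
        linarith
      exact_mod_cast mul_left_cancel₀ hc4 h3
    have hγ : ∀ s, e (γ • s) = (e (γ • s) * e s) * e s := by
      intro s
      rw [mul_assoc, hee, mul_one]
    have hgv : ∀ s, e (γ • s) * e s = 1 ∨ e (γ • s) * e s = -1 := by
      intro s
      rcases he.1 s with h | h <;> rcases he.1 (γ • s) with h' | h' <;> rw [h, h'] <;> norm_num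
    have hcase : ∀ s, (e (γ₁ • s) * e s = 1 ∧ e (γ • s) * e s = e (γ • sp) * e sp) ∨
        (e (γ₁ • s) * e s = -1 ∧ e (γ • s) * e s = e (γ • sm) * e sm) := by
      intro s
      rcases hd1 s with h | h
      · exact Or.inl ⟨h, hdet s sp (by rw [h, hsp])⟩
      · exact Or.inr ⟨h, hdet s sm (by rw [h, hsm])⟩
    rcases hgv sp with h1 | h1 <;> rcases hgv sm with h2 | h2
    · left
      intro s
      rw [hγ s]
      rcases hcase s with ⟨h3, h4⟩ | ⟨h3, h4⟩
      · rw [h4, h1, one_mul]
      · rw [h4, h2, one_mul]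
    · right; right; left
      intro s
      show e (γ • s) = e (γ₁ • s) * e s * e s
      rw [hγ s]
      rcases hcase s with ⟨h3, h4⟩ | ⟨h3, h4⟩
      · rw [h4, h1, h3]
      · rw [h4, h2, h3]
    · right; right; right
      intro s
      show e (γ • s) = -(e (γ₁ • s) * e s * e s)
      rw [hγ s]
      rcases hcase s with ⟨h3, h4⟩ | ⟨h3, h4⟩
      · rw [h4, h1, h3]
        ring
      · rw [h4, h2, h3]
        ring
    · right; left
      intro s
      rw [hγ s]
      rcases hcase s with ⟨h3, h4⟩ | ⟨h3, h4⟩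
      · rw [h4, h1]
        ring
      · rw [h4, h2]
        ring

end Pool.Agent.Lib.MP_640417_ag.Cls
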